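import Mathlib

/-!
# Counting the colourings of a bipartite graph
-/

set_option autoImplicit false

namespace Pool.Agent.P8H87.SK

open Finset

variable {V : Type} [Fintype V] (G : SimpleGraph V) (A : Set V)

open scoped Classical in
/-- the neighbours outside of `A` -/
noncomputable def Nb (a : {v : V // v ∈ A}) : Finset {v : V // v ∉ A} :=
  univ.filter fun b => G.Adj a.1 b.1

lemma mem_Nb {a : {v : V // v ∈ A}} {b : {v : V // v ∉ A}} :
    b ∈ Nb G A a ↔ G.Adj a.1 b.1 := by
  unfold Nb
  simp

open scoped Classical in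
/-- the weight of a colouring of the side `B` -/
noncomputable def Phi {α β γ : Type} [Fintype α] (N : α → Finset β) (x : ℝ) (c : β → γ) : ℝ :=
  ∏ a, (x - ((N a).image c).card)

open scoped Classical in
lemma card_col (hbip : ∀ u v : V, G.Adj u v → (u ∈ A ↔ v ∉ A)) (n : ℕ) :
    (Nat.card (G.Coloring (Fin n)) : ℝ) =
      ∑ c : {v : V // v ∉ A} → Fin n, Phi (Nb G A) (n : ℝ) c := by
  have e : G.Coloring (Fin n) ≃ (Σ c : {v : V // v ∉ A} → Fin n, ∀ a : {v : V // v ∈ A},
      {x : Fin n // x ∉ (Nb G A a).image c}) :=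
    { toFun := fun C => ⟨fun b => C b.1, fun a => ⟨C a.1, fun h => by
        obtain ⟨b, hb, h2⟩ := mem_image.1 h
        exact C.valid (mem_filter.1 hb).2 h2.symm⟩⟩
      invFun := fun p => SimpleGraph.Coloring.mk
        (fun v => if h : v ∈ A then (p.2 ⟨v, h⟩).1 else p.1 ⟨v, h⟩) (by
          intro u v huv
          by_cases hu : u ∈ A
          · have hv : v ∉ A := (hbip u v huv).1 hu
            rw [dif_pos hu, dif_neg hv]
            intro h
            exact (p.2 ⟨u, hu⟩).2 (mem_image.2 ⟨⟨v, hv⟩, mem_filter.2 ⟨mem_univ _, huv⟩, h.symm⟩)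
          · have hv : v ∈ A := by
              by_contra hv
              exact hu ((hbip u v huv).2 hv)
            rw [dif_neg hu, dif_pos hv]
            intro h
            exact (p.2 ⟨v, hv⟩).2 (mem_image.2 ⟨⟨u, hu⟩, mem_filter.2 ⟨mem_univ _, huv.symm⟩, h⟩))
      left_inv := fun C => by
        apply RelHom.ext
        intro v
        show (if h : v ∈ A then C v else C v) = C v
        split_ifs <;> rfl
      right_inv := fun p => by
        obtain ⟨c, d⟩ := p
        have h1 : (fun b : {v : V // v ∉ A} => (if h : b.1 ∈ A then (d ⟨b.1, h⟩).1 else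
            c ⟨b.1, h⟩)) = c := by
          funext b
          rw [dif_neg b.2]
        refine Sigma.ext h1 ?_
        apply Function.hfunext rfl
        intro a a' haa
        have haa' : a = a' := eq_of_heq haa
        subst haa'
        have h2 : ∀ (c' : {v : V // v ∉ A} → Fin n), c' = c →
            ∀ (x : {x : Fin n // x ∉ (Nb G A a).image c'}), x.1 = (d a).1 → HEq x (d a) := by
          intro c' hc' x hx
          subst hc'
          exact heq_of_eq (Subtype.ext hx)
        refine h2 _ h1 _ ?_
        show (if h : a.1 ∈ A then (d ⟨a.1, h⟩).1 else c ⟨a.1, h⟩) = (d a).1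
        rw [dif_pos a.2] }
  rw [Nat.card_congr e, Nat.card_eq_fintype_card, Fintype.card_sigma]
  push_cast
  refine sum_congr rfl fun c _ => ?_
  rw [Fintype.card_pi]
  push_cast
  unfold Phi
  refine prod_congr rfl fun a _ => ?_
  have h1 := card_le_univ ((Nb G A a).image c)
  rw [Fintype.card_fin] at h1
  rw [Fintype.card_subtype_compl, Fintype.card_fin, Fintype.card_coe, Nat.cast_sub h1]
  refine congrArg (fun y : ℕ => (n : ℝ) - (y : ℝ)) (congrArg Finset.card ?_)
  ext y
  simp only [mem_image]

lemma card_Nb [DecidableRel G.Adj] (a : {v : V // v ∈ A}) : (Nb G A a).card ≤ G.degree a.1 := by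
  classical
  rw [← SimpleGraph.card_neighborFinset_eq_degree]
  refine card_le_card_of_injOn (fun b => b.1) (fun b hb => ?_) (fun b _ b' _ h => Subtype.ext h)
  rw [mem_coe, SimpleGraph.mem_neighborFinset]
  exact (mem_Nb G A).1 hb

/-- two polynomials with the same values at the natural numbers -/
lemma poly_eq {P Q : Polynomial ℝ} (h : ∀ n : ℕ, P.eval (n : ℝ) = Q.eval (n : ℝ)) : P = Q := by
  refine Polynomial.eq_of_infinite_eval_eq P Q ?_
  refine Set.Infinite.mono ?_ (Set.infinite_range_of_injective (Nat.cast_injective (R := ℝ)))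
  rintro _ ⟨n, rfl⟩
  exact h n

end Pool.Agent.P8H87.SK
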