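import Pool.Agent.P8H87.SK.Swap

/-!
# Small vertex covers
-/

set_option autoImplicit false

namespace Pool.Agent.P8H87.SK

open Finset Polynomial

open scoped Classical in
lemma gen_sum {W : Type} [Fintype W] (w : ∀ n : ℕ, (W → Fin n) → ℝ)
    (hw : ∀ (k n : ℕ) (h : W → Fin k) (e : Fin k → Fin n), Function.Injective e →
      w n (e ∘ h) = w k h) (n : ℕ) :
    ∑ c : W → Fin n, w n c =
      ∑ k ∈ range (Fintype.card W + 1), (n.choose k : ℝ) * ∑ f ∈ Sj W k, w k f := by
  have h1 : ∑ c : W → Fin n, w n c = ∑ S ∈ (univ : Finset (Fin n)).powerset,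
      ∑ c ∈ univ.filter (fun c : W → Fin n => univ.image c = S), w n c := by
    rw [sum_fiberwise_of_maps_to]
    intro c _
    exact mem_powerset.2 (subset_univ _)
  have h2 : ∀ S : Finset (Fin n),
      ∑ c ∈ univ.filter (fun c : W → Fin n => univ.image c = S), w n c =
        ∑ f ∈ Sj W S.card, w S.card f := by
    intro S
    symm
    refine sum_bij (fun f _ => (S.orderEmbOfFin rfl) ∘ f) ?_ ?_ ?_ ?_
    · intro f hf
      refine mem_filter.2 ⟨mem_univ _, ?_⟩
      rw [← image_image, image_univ_of_surjective (mem_Sj.1 hf), ← Finset.coe_inj]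
      simp
    · intro f _ g _ h
      funext u
      exact (S.orderEmbOfFin rfl).injective (congrFun h u)
    · intro c hc
      have hc' := (mem_filter.1 hc).2
      have hm : ∀ u, c u ∈ S := fun u => by
        rw [← hc']
        exact mem_image_of_mem _ (mem_univ _)
      have h3 : ∀ u, ∃ i, S.orderEmbOfFin rfl i = c u := by
        intro u
        have : c u ∈ Set.range (S.orderEmbOfFin rfl) := by
          rw [range_orderEmbOfFin]
          exact hm u
        exact this
      choose f hf using h3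
      refine ⟨f, mem_Sj.2 fun i => ?_, funext hf⟩
      have h4 : S.orderEmbOfFin rfl i ∈ univ.image c := by
        rw [hc']
        exact orderEmbOfFin_mem _ _ _
      obtain ⟨u, _, hu⟩ := mem_image.1 h4
      refine ⟨u, (S.orderEmbOfFin rfl).injective ?_⟩
      rw [hf u, hu]
    · intro f _
      exact (hw _ _ f _ (S.orderEmbOfFin rfl).injective).symm
  rw [h1, sum_congr rfl fun S _ => h2 S,
    sum_powerset_apply_card (fun k => ∑ f ∈ Sj W k, w k f), card_univ, Fintype.card_fin]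
  have h3 : ∑ m ∈ range (n + 1), n.choose m • ∑ f ∈ Sj W m, w m f =
      ∑ k ∈ range (n + Fintype.card W + 1), (n.choose k : ℝ) * ∑ f ∈ Sj W k, w k f := by
    rw [sum_congr rfl fun m _ => nsmul_eq_mul (n.choose m) (∑ f ∈ Sj W m, w m f)]
    refine sum_subset (range_subset_range.2 (by omega)) fun k _ hk => ?_
    rw [mem_range] at hk
    rw [Nat.choose_eq_zero_of_lt (by omega)]
    simp
  rw [h3]
  symm
  refine sum_subset (range_subset_range.2 (by omega)) fun k _ hk => ?_
  rw [mem_range] at hk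
  have : Sj W k = ∅ := by
    apply eq_empty_of_forall_notMem
    intro f hf
    have := Fintype.card_le_of_surjective f (mem_Sj.1 hf)
    rw [Fintype.card_fin] at this
    omega
  rw [this, sum_empty, mul_zero]

/-- the neighbours in the cover -/
noncomputable def MC {V : Type} (R : V → V → Prop) (S : Finset V) (v : V) :
    Finset {u : V // u ∈ S} := by
  classical
  exact univ.filter fun u => R u.1 v ∨ R v u.1

lemma mem_MC {V : Type} {R : V → V → Prop} {S : Finset V} {v : V} {u : {u : V // u ∈ S}} :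
    u ∈ MC R S v ↔ R u.1 v ∨ R v u.1 := by
  unfold MC
  simp

open scoped Classical in
/-- the weight of a colouring of the cover -/
noncomputable def QC {V : Type} [Fintype V] (R : V → V → Prop) (S : Finset V) (n : ℕ)
    (c : {u : V // u ∈ S} → Fin n) : ℝ[X] :=
  if ∀ u v : {u : V // u ∈ S}, R u.1 v.1 → c u ≠ c v then
    ∏ v : {v : V // ¬ v ∈ S}, (X - C (((MC R S v.1).image c).card : ℝ)) else 0

lemma QC_inv {V : Type} [Fintype V] (R : V → V → Prop) (S : Finset V) (k n : ℕ)
    (h : {u : V // u ∈ S} → Fin k) (e : Fin k → Fin n) (he : Function.Injective e) :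
    QC R S n (e ∘ h) = QC R S k h := by
  classical
  unfold QC
  have h1 : (∀ u v : {u : V // u ∈ S}, R u.1 v.1 → (e ∘ h) u ≠ (e ∘ h) v) ↔
      ∀ u v : {u : V // u ∈ S}, R u.1 v.1 → h u ≠ h v := by
    constructor
    · intro h2 u v huv h3
      exact h2 u v huv (congrArg e h3)
    · intro h2 u v huv h3
      exact h2 u v huv (he h3)
  by_cases h2 : ∀ u v : {u : V // u ∈ S}, R u.1 v.1 → h u ≠ h v
  · rw [if_pos h2, if_pos (h1.2 h2)]
    refine prod_congr rfl fun v _ => ?_
    have h3 : ∀ (I : DecidableEq (Fin k)) (J : DecidableEq (Fin n)),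
        (@Finset.image _ (Fin n) J (e ∘ h) (MC R S v.1)).card =
          (@Finset.image _ (Fin k) I h (MC R S v.1)).card := by
      intro I J
      rw [← image_image]
      exact card_image_of_injective _ he
    exact congrArg (fun z : ℕ => (X - C (z : ℝ) : ℝ[X])) (h3 _ _)
  · rw [if_neg h2, if_neg (fun h3 => h2 (h1.1 h3))]

open scoped Classical in
lemma count_cover {V : Type} [Fintype V] (R : V → V → Prop) (S : Finset V)
    (hcov : ∀ u v, R u v → u ∈ S ∨ v ∈ S) (n : ℕ) :
    ((univ.filter fun h : V → Fin n => ∀ u v, R u v → h u ≠ h v).card : ℝ) =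
      ∑ c : {u : V // u ∈ S} → Fin n, (QC R S n c).eval (n : ℝ) := by
  rw [card_filter]
  push_cast
  have h1 : ∑ h : V → Fin n, (if ∀ u v, R u v → h u ≠ h v then (1 : ℝ) else 0) =
      ∑ p : ({u : V // u ∈ S} → Fin n) × ({u : V // ¬ u ∈ S} → Fin n),
        (if (∀ u v : {u : V // u ∈ S}, R u.1 v.1 → p.1 u ≠ p.1 v) ∧
          (∀ v : {v : V // ¬ v ∈ S}, p.2 v ∉ (MC R S v.1).image p.1) then (1 : ℝ) else 0) := by
    refine Fintype.sum_equiv (Equiv.piEquivPiSubtypeProd (fun u => u ∈ S) (fun _ => Fin n)) _ _ ?_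
    intro h
    have h2 : (∀ u v, R u v → h u ≠ h v) ↔
        ((∀ u v : {u : V // u ∈ S}, R u.1 v.1 → h u.1 ≠ h v.1) ∧
          (∀ v : {v : V // ¬ v ∈ S}, ∀ u : {u : V // u ∈ S}, (R u.1 v.1 ∨ R v.1 u.1) →
            h u.1 ≠ h v.1)) := by
      constructor
      · intro h3
        refine ⟨fun u v huv => h3 _ _ huv, fun v u huv => ?_⟩
        rcases huv with huv | huv
        · exact h3 _ _ huv
        · exact (h3 _ _ huv).symm
      · rintro ⟨h3, h4⟩ u v huv
        by_cases hu : u ∈ S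
        · by_cases hv : v ∈ S
          · exact h3 ⟨u, hu⟩ ⟨v, hv⟩ huv
          · exact h4 ⟨v, hv⟩ ⟨u, hu⟩ (Or.inl huv)
        · have hv : v ∈ S := (hcov u v huv).resolve_left hu
          exact (h4 ⟨u, hu⟩ ⟨v, hv⟩ (Or.inr huv)).symm
    have h5 : ((∀ u v : {u : V // u ∈ S}, R u.1 v.1 →
          ((Equiv.piEquivPiSubtypeProd (fun u => u ∈ S) (fun _ => Fin n)) h).1 u ≠
          ((Equiv.piEquivPiSubtypeProd (fun u => u ∈ S) (fun _ => Fin n)) h).1 v) ∧
          (∀ v : {v : V // ¬ v ∈ S},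
          ((Equiv.piEquivPiSubtypeProd (fun u => u ∈ S) (fun _ => Fin n)) h).2 v ∉
          (MC R S v.1).image
            ((Equiv.piEquivPiSubtypeProd (fun u => u ∈ S) (fun _ => Fin n)) h).1)) ↔
        (∀ u v, R u v → h u ≠ h v) := by
      rw [h2]
      refine and_congr Iff.rfl (forall_congr' fun v => ?_)
      simp only [mem_image, not_exists, not_and, mem_MC]
      rfl
    by_cases h6 : ∀ u v, R u v → h u ≠ h v
    · rw [if_pos h6, if_pos (h5.2 h6)]
    · rw [if_neg h6, if_neg (fun h7 => h6 (h5.1 h7))]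
  rw [h1, Fintype.sum_prod_type]
  refine sum_congr rfl fun c _ => ?_
  unfold QC
  by_cases h2 : ∀ u v : {u : V // u ∈ S}, R u.1 v.1 → c u ≠ c v
  · rw [if_pos h2, eval_prod]
    have h3 : ∀ d : {u : V // ¬ u ∈ S} → Fin n,
        (if (∀ u v : {u : V // u ∈ S}, R u.1 v.1 → c u ≠ c v) ∧
          (∀ v : {v : V // ¬ v ∈ S}, d v ∉ (MC R S v.1).image c) then (1 : ℝ) else 0) =
        if d ∈ Fintype.piFinset (fun v : {v : V // ¬ v ∈ S} => univ \ (MC R S v.1).image c)
          then 1 else 0 := by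
      intro d
      have h4 : (d ∈ Fintype.piFinset (fun v : {v : V // ¬ v ∈ S} =>
          univ \ (MC R S v.1).image c)) ↔
          (∀ v : {v : V // ¬ v ∈ S}, d v ∉ (MC R S v.1).image c) := by
        simp only [Fintype.mem_piFinset, mem_sdiff, mem_univ, true_and]
      by_cases h5 : ∀ v : {v : V // ¬ v ∈ S}, d v ∉ (MC R S v.1).image c
      · rw [if_pos ⟨h2, h5⟩, if_pos (h4.2 h5)]
      · rw [if_neg (fun h6 => h5 h6.2), if_neg (fun h6 => h5 (h4.1 h6))]
    rw [sum_congr rfl fun d _ => h3 d, sum_boole, filter_mem_eq_inter, univ_inter,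
      Fintype.card_piFinset]
    push_cast
    refine prod_congr rfl fun v _ => ?_
    rw [eval_sub, eval_X, eval_C]
    have h4 := card_sdiff_add_card_eq_card (subset_univ ((MC R S v.1).image c))
    rw [card_univ, Fintype.card_fin] at h4
    have h5 : ((univ \ (MC R S v.1).image c).card : ℝ) + ((MC R S v.1).image c).card = n := by
      exact_mod_cast h4
    linarith
  · rw [if_neg h2, eval_zero]
    refine sum_eq_zero fun d _ => if_neg fun h3 => h2 h3.1

lemma dp_pos {x : ℝ} {K : ℕ} (h1 : (K : ℝ) < x) (k : ℕ) (hk : k ≤ K) :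
    0 < (descPochhammer ℝ k).eval x := by
  induction k with
  | zero => simp
  | succ k ih =>
    rw [descPochhammer_succ_eval]
    refine mul_pos (ih (by omega)) ?_
    have : (k : ℝ) ≤ K := by exact_mod_cast (by omega : k ≤ K)
    linarith

lemma QC_nonneg {V : Type} [Fintype V] (R : V → V → Prop) (S : Finset V) {x : ℝ} {k : ℕ}
    (hk : (k : ℝ) < x) (c : {u : V // u ∈ S} → Fin k) :
    0 ≤ (QC R S k c).eval x ∧
      ((∀ u v : {u : V // u ∈ S}, R u.1 v.1 → c u ≠ c v) → 0 < (QC R S k c).eval x) := by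
  classical
  unfold QC
  by_cases h2 : ∀ u v : {u : V // u ∈ S}, R u.1 v.1 → c u ≠ c v
  · rw [if_pos h2, eval_prod]
    have h3 : 0 < ∏ v : {v : V // ¬ v ∈ S},
        (X - C (((MC R S v.1).image c).card : ℝ) : ℝ[X]).eval x := by
      refine prod_pos fun v _ => ?_
      rw [eval_sub, eval_X, eval_C]
      have h4 := card_le_univ ((MC R S v.1).image c)
      rw [Fintype.card_fin] at h4
      have h5 : (((MC R S v.1).image c).card : ℝ) ≤ k := by exact_mod_cast h4
      linarith
    refine ⟨?_, fun _ => ?_⟩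
    · exact h3.le
    · exact h3
  · rw [if_neg h2]
    exact ⟨by simp, fun h => absurd h h2⟩

open scoped Classical in
theorem cover_pos {V : Type} [Fintype V] {R : V → V → Prop} {S : Finset V}
    (hcov : ∀ u v, R u v → u ∈ S ∨ v ∈ S) (hirr : ∀ u, ¬ R u u) {x : ℝ}
    (hx : (S.card : ℝ) < x) {P : ℝ[X]}
    (hP : ∀ n : ℕ, P.eval (n : ℝ) =
      ((univ.filter fun h : V → Fin n => ∀ u v, R u v → h u ≠ h v).card : ℝ)) :
    0 < P.eval x := by
  have h1 : P = ∑ k ∈ range (S.card + 1), C ((k.factorial : ℝ)⁻¹) * descPochhammer ℝ k *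
      ∑ f ∈ Sj {u : V // u ∈ S} k, QC R S k f := by
    apply poly_eq
    intro n
    have h2 := gen_sum (W := {u : V // u ∈ S}) (fun m c => (QC R S m c).eval (n : ℝ))
      (fun k m h e he => by
        show (QC R S m (e ∘ h)).eval (n : ℝ) = (QC R S k h).eval (n : ℝ)
        rw [QC_inv R S k m h e he]) n
    rw [hP, count_cover R S hcov]
    refine Eq.trans ?_ (h2.trans ?_)
    · exact sum_congr (by ext c; simp only [mem_univ]) fun _ _ => rfl
    rw [Fintype.card_coe, eval_finsetSum]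
    refine sum_congr rfl fun k _ => ?_
    rw [eval_mul, eval_mul, eval_C, eval_finsetSum, descPochhammer_eval_eq_descFactorial,
      Nat.descFactorial_eq_factorial_mul_choose]
    push_cast
    have : (k.factorial : ℝ) ≠ 0 := by exact_mod_cast k.factorial_ne_zero
    field_simp
  rw [h1, eval_finsetSum]
  have hk : ∀ k ∈ range (S.card + 1), (k : ℝ) < x := by
    intro k hk
    rw [mem_range] at hk
    exact lt_of_le_of_lt (by exact_mod_cast (by omega : k ≤ S.card)) hx
  refine sum_pos' (fun k hk' => ?_) ⟨S.card, mem_range.2 (by omega), ?_⟩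
  · rw [eval_mul, eval_mul, eval_C, eval_finsetSum]
    rw [mem_range] at hk'
    refine mul_nonneg (mul_nonneg (inv_nonneg.2 (Nat.cast_nonneg _))
      (dp_pos hx k (by omega)).le) (sum_nonneg fun f _ => ?_)
    exact (QC_nonneg R S (hk k (mem_range.2 hk')) f).1
  · rw [eval_mul, eval_mul, eval_C, eval_finsetSum]
    have hf : (0 : ℝ) < S.card.factorial := by exact_mod_cast S.card.factorial_pos
    refine mul_pos (mul_pos (inv_pos.2 hf) (dp_pos hx _ le_rfl)) ?_
    refine sum_pos' (fun f _ => (QC_nonneg R S hx f).1) ⟨S.equivFin, ?_, ?_⟩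
    · exact mem_Sj.2 S.equivFin.surjective
    · refine (QC_nonneg R S hx _).2 fun u v huv h => ?_
      have : u = v := S.equivFin.injective h
      subst this
      exact hirr _ huv

/-- the relation of the bipartite graph -/
def RN {α γ : Type} (N : α → Finset γ) (u v : α ⊕ γ) : Prop :=
  ∃ a b, u = Sum.inl a ∧ v = Sum.inr b ∧ b ∈ N a

open scoped Classical in
lemma Phi_count {α γ : Type} [Fintype α] [Fintype γ] (N : α → Finset γ) (n : ℕ) :
    ∑ g : γ → Fin n, Phi N (n : ℝ) g =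
      ((univ.filter fun h : α ⊕ γ → Fin n => ∀ u v, RN N u v → h u ≠ h v).card : ℝ) := by
  rw [sum_congr rfl fun c _ => Phi_card N c]
  simp only [card_filter, Nat.cast_sum]
  rw [sum_comm]
  have h1 : ∑ h : α ⊕ γ → Fin n,
      (((if ∀ u v, RN N u v → h u ≠ h v then 1 else 0 : ℕ)) : ℝ) =
      ∑ p : (α → Fin n) × (γ → Fin n),
        (((if ∀ a, ∀ b ∈ N a, p.1 a ≠ p.2 b then 1 else 0 : ℕ)) : ℝ) := by
    refine Fintype.sum_equiv (Equiv.sumArrowEquivProdArrow α γ (Fin n)) _ _ ?_
    intro h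
    have h2 : (∀ u v, RN N u v → h u ≠ h v) ↔
        (∀ a, ∀ b ∈ N a, ((Equiv.sumArrowEquivProdArrow α γ (Fin n)) h).1 a ≠
          ((Equiv.sumArrowEquivProdArrow α γ (Fin n)) h).2 b) := by
      constructor
      · intro h3 a b hb
        exact h3 _ _ ⟨a, b, rfl, rfl, hb⟩
      · rintro h3 u v ⟨a, b, rfl, rfl, hb⟩
        exact h3 a b hb
    by_cases h3 : ∀ u v, RN N u v → h u ≠ h v
    · rw [if_pos h3, if_pos (h2.1 h3)]
    · rw [if_neg h3, if_neg (fun h4 => h3 (h2.2 h4))]
  rw [h1, Fintype.sum_prod_type]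
  refine sum_congr rfl fun y _ => sum_congr rfl fun z _ => ?_
  by_cases h : ∀ a, ∀ b ∈ N a, y a ≠ z b
  · rw [if_pos h, if_pos h]
  · rw [if_neg h, if_neg h]

open scoped Classical in
theorem cover_pos_N {α γ : Type} [Fintype α] [Fintype γ] {N : α → Finset γ} {P : ℝ[X]}
    (hP : ∀ n : ℕ, P.eval (n : ℝ) = ∑ g : γ → Fin n, Phi N (n : ℝ) g) {x : ℝ}
    (S : Finset (α ⊕ γ)) (hS : ∀ a, ∀ b ∈ N a, Sum.inl a ∈ S ∨ Sum.inr b ∈ S)
    (hx : (S.card : ℝ) < x) : 0 < P.eval x := by
  refine cover_pos (R := RN N) (S := S) ?_ ?_ hx fun n => ?_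
  rotate_left 2
  · rw [hP, Phi_count]
    refine congrArg (fun z : ℕ => (z : ℝ)) (congrArg card ?_)
    ext h
    simp only [mem_filter, mem_univ, true_and]
  · rintro u v ⟨a, b, rfl, rfl, hb⟩
    exact hS a b hb
  · rintro u ⟨a, b, h1, h2, -⟩
    rw [h1] at h2
    cases h2

open scoped Classical in
lemma RT4 {α α' β : Type} [Fintype α'] [Fintype β] (T : Finset α) (i j : α → β)
    (N : α' → Finset β) (SA : Finset α') (SB : Finset β) (hS : ∀ a, a ∉ SA → N a ⊆ SB) {x : ℝ}
    (hx : (SA.card : ℝ) + SB.card < x) :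
    ∃ R : ℝ[X], (∀ n : ℕ, R.eval (n : ℝ) = ∑ c ∈ Fc T i j n, Phi N (n : ℝ) c) ∧
      0 < R.eval x := by
  obtain ⟨γ, hγ, p, hp, hp1, hp2⟩ := exists_quot T i j
  obtain ⟨R0, hR0⟩ := exists_poly (fun a => (N a).image p)
  refine ⟨R0, fun n => ?_, cover_pos_N hR0 (SA.disjSum (SB.image p)) (fun a b hb => ?_) ?_⟩
  · rw [hR0, sum_pairs_eq T i j p hp hp1 (hp2 n)]
  · by_cases ha : a ∈ SA
    · exact Or.inl (inl_mem_disjSum.2 ha)
    · obtain ⟨b', hb', rfl⟩ := mem_image.1 hb
      exact Or.inr (inr_mem_disjSum.2 (mem_image_of_mem _ (hS a ha hb')))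
  · rw [card_disjSum]
    have h1 : ((SB.image p).card : ℝ) ≤ SB.card := by exact_mod_cast card_image_le
    push_cast
    linarith

open scoped Classical in
/-- the positivity when the edges at the large sets have a small vertex cover -/
theorem mix_pos_cover {α β : Type} [Fintype α] [Fintype β] {N : α → Finset β} {P : ℝ[X]}
    (hP : ∀ n : ℕ, P.eval (n : ℝ) = ∑ c : β → Fin n, Phi N (n : ℝ) c) {x : ℝ}
    (hx : ∀ a, ((N a).card : ℝ) < x) (hx0 : 0 < x) (SA : Finset α) (SB : Finset β)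
    (hS : ∀ a, 3 ≤ (N a).card → a ∉ SA → N a ⊆ SB) (hc : (SA.card : ℝ) + SB.card < x) :
    0 < P.eval x := by
  by_cases h3 : ∃ a, 3 ≤ (N a).card
  swap
  · push Not at h3
    exact two_pos (fun a => by have := h3 a; omega) hP hx hx0
  obtain ⟨a0, ha0⟩ := h3
  obtain ⟨b0, hb0⟩ : (N a0).Nonempty := card_pos.1 (by omega)
  obtain ⟨p, hp⟩ : ∃ p : α → Prop, ∀ a, p a ↔ (N a).card ≤ 2 := ⟨_, fun a => Iff.rfl⟩
  obtain ⟨M, hM⟩ : ∃ M : {a : α // p a} → Finset β, M = fun a => N a.1 := ⟨_, rfl⟩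
  obtain ⟨M', hM'⟩ : ∃ M' : {a : α // ¬ p a} → Finset β, M' = fun a => N a.1 := ⟨_, rfl⟩
  have hR : ∀ (T : Finset {a : α // p a}) (i j : {a : α // p a} → β),
      ∃ R : ℝ[X], (∀ n : ℕ, R.eval (n : ℝ) =
      ∑ c ∈ Fc T i j n, Phi M' (n : ℝ) c) ∧ 0 < R.eval x := by
    intro T i j
    refine RT4 T i j M' (SA.subtype (fun a => ¬ p a)) SB (fun a ha => ?_) ?_
    · rw [hM']
      have h4 := a.2
      rw [hp] at h4
      exact hS a.1 (by omega) fun h5 => ha (mem_subtype.2 h5)
    · have h4 : ((SA.subtype (fun a => ¬ p a)).card : ℝ) ≤ SA.card := by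
        rw [card_subtype]
        exact_mod_cast card_filter_le _ _
      linarith
  have hP' : ∀ n : ℕ, P.eval (n : ℝ) = ∑ c : β → Fin n,
      Phi M (n : ℝ) c * Phi M' (n : ℝ) c := by
    intro n
    rw [hP, hM, hM']
    exact sum_congr rfl fun c _ => (Phi_split p N (n : ℝ) c).symm
  have h2 : ∀ a, (M a).card ≤ 2 := fun a => by
    rw [hM]
    exact (hp a.1).1 a.2
  exact mix_aux h2 hP' (fun a => by rw [hM]; exact hx a.1) b0 hR

end Pool.Agent.P8H87.SK
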