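import Pool.Agent.P8H87.SK.Col

/-!
# Sets with at most two elements
-/

set_option autoImplicit false

namespace Pool.Agent.P8H87.SK

open Finset Polynomial

variable {α β : Type} [Fintype α] [Fintype β]

open scoped Classical in
/-- the equivalence relation on `β` generated by the pairs of `T` -/
def gen (T : Finset α) (i j : α → β) : Setoid β :=
  Relation.EqvGen.setoid fun u v => ∃ a ∈ T, i a = u ∧ j a = v

open scoped Classical in
lemma card_const (T : Finset α) (i j : α → β) (n : ℕ) :
    ((univ.filter fun c : β → Fin n => ∀ a ∈ T, c (i a) = c (j a)).card : ℝ) =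
      (n : ℝ) ^ Nat.card (Quotient (gen T i j)) := by
  have e : {c : β → Fin n // ∀ a ∈ T, c (i a) = c (j a)} ≃ (Quotient (gen T i j) → Fin n) :=
    { toFun := fun c => Quotient.lift c.1 (by
        intro u v huv
        have h : Relation.EqvGen (fun u v => ∃ a ∈ T, i a = u ∧ j a = v) u v := huv
        induction h with
        | rel u v h =>
          obtain ⟨a, ha, rfl, rfl⟩ := h
          exact c.2 a ha
        | refl u => rfl
        | symm u v _ ih => exact (ih ‹_›).symm
        | trans u v w _ _ ih1 ih2 => exact (ih1 ‹_›).trans (ih2 ‹_›))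
      invFun := fun g => ⟨fun b => g (Quotient.mk _ b), fun a ha => by
        have h0 : (gen T i j) (i a) (j a) := Relation.EqvGen.rel _ _ ⟨a, ha, rfl, rfl⟩
        have h1 : Quotient.mk (gen T i j) (i a) = Quotient.mk (gen T i j) (j a) :=
          Quotient.sound h0
        exact congrArg g h1⟩
      left_inv := fun c => rfl
      right_inv := fun g => by
        funext q
        induction q using Quotient.inductionOn with
        | h b => rfl }
  have h1 := Fintype.card_congr e
  rw [Fintype.card_subtype] at h1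
  rw [h1, Fintype.card_fun, Fintype.card_fin, Nat.card_eq_fintype_card]
  push_cast
  rfl

open scoped Classical in
/-- the polynomial for sets with at most two elements -/
theorem two_pos {N : α → Finset β} (h2 : ∀ a, (N a).card ≤ 2) {P : ℝ[X]}
    (hP : ∀ n : ℕ, P.eval (n : ℝ) = ∑ c : β → Fin n, Phi N (n : ℝ) c) {q : ℝ}
    (hq : ∀ a, ((N a).card : ℝ) < q) (hq0 : 0 < q) : 0 < P.eval q := by
  -- the pairs
  have hij : ∀ a, ∃ (i j : Option β) (ε : ℝ), (ε = 0 ∨ ε = 1) ∧
      (ε = 1 → ∃ u v : β, i = some u ∧ j = some v ∧ u ≠ v ∧ N a = {u, v}) ∧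
      (ε = 0 → (N a).card ≤ 1) := by
    intro a
    by_cases h : (N a).card = 2
    · obtain ⟨u, v, huv, hN⟩ := card_eq_two.1 h
      exact ⟨some u, some v, 1, Or.inr rfl, fun _ => ⟨u, v, rfl, rfl, huv, hN⟩,
        fun h => absurd h one_ne_zero⟩
    · exact ⟨none, none, 0, Or.inl rfl, fun h => absurd h.symm one_ne_zero, fun _ => by
        have := h2 a
        omega⟩
  rcases isEmpty_or_nonempty β with hβ | ⟨⟨b0⟩⟩
  · -- no vertices on the other side
    have hN : ∀ a, N a = ∅ := fun a => eq_empty_of_forall_notMem fun x => (hβ.false x).elim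
    have h1 : P = X ^ Fintype.card α := by
      apply poly_eq
      intro n
      rw [hP]
      simp [Phi, hN]
    rw [h1]
    simp only [eval_pow, eval_X]
    positivity
  obtain ⟨E, hE⟩ : ∃ E : Finset α, E = univ.filter fun a => (N a).card = 2 := ⟨_, rfl⟩
  have hex : ∀ a, ∃ u v : β, (N a).card = 2 → u ≠ v ∧ N a = {u, v} := by
    intro a
    by_cases h : (N a).card = 2
    · obtain ⟨u, v, huv, hN⟩ := card_eq_two.1 h
      exact ⟨u, v, fun _ => ⟨huv, hN⟩⟩
    · exact ⟨b0, b0, fun h' => absurd h' h⟩
  choose i j hN using hex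
  have hfac : ∀ (n : ℕ) (c : β → Fin n) (a : α), (n : ℝ) - ((N a).image c).card =
      (if (N a).card = 2 ∧ c (i a) = c (j a) then 1 else 0) + ((n : ℝ) - (N a).card) := by
    intro n c a
    by_cases h : (N a).card = 2
    · obtain ⟨h3, h4⟩ := hN a h
      rw [h]
      by_cases h5 : c (i a) = c (j a)
      · rw [if_pos ⟨rfl, h5⟩, h4, image_insert, image_singleton, h5]
        simp
        ring
      · rw [if_neg (fun h6 => h5 h6.2), h4, image_insert, image_singleton, card_pair h5]
        ring
    · rw [if_neg (fun h6 => h h6.1), zero_add]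
      have h3 : (N a).card ≤ 1 := by
        have := h2 a
        omega
      congr 2
      rw [card_image_iff]
      intro x hx y hy _
      exact card_le_one.1 h3 x hx y hy
  have hPQ : P = ∑ T ∈ (univ : Finset α).powerset, (if T ⊆ E then
      X ^ Nat.card (Quotient (gen T i j)) * ∏ a ∈ univ \ T, (X - C ((N a).card : ℝ)) else 0) := by
    apply poly_eq
    intro n
    rw [hP, eval_finsetSum]
    unfold Phi
    have h3 : ∀ c : β → Fin n, ∏ a, ((n : ℝ) - ((N a).image c).card) =
        ∑ T ∈ (univ : Finset α).powerset, (∏ a ∈ T,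
          (if (N a).card = 2 ∧ c (i a) = c (j a) then (1 : ℝ) else 0)) *
          ∏ a ∈ univ \ T, ((n : ℝ) - (N a).card) := by
      intro c
      rw [← prod_add]
      exact prod_congr rfl fun a _ => by
        rw [← hfac n c a]
    have h4 : ∑ c : β → Fin n, ∏ a, ((n : ℝ) - ((N a).image c).card) =
        ∑ T ∈ (univ : Finset α).powerset, ∑ c : β → Fin n, (∏ a ∈ T,
          (if (N a).card = 2 ∧ c (i a) = c (j a) then (1 : ℝ) else 0)) *
          ∏ a ∈ univ \ T, ((n : ℝ) - (N a).card) := by
      rw [sum_comm]
      exact sum_congr rfl fun c _ => h3 c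
    refine Eq.trans ?_ (h4.trans ?_)
    · refine sum_congr rfl fun c _ => prod_congr rfl fun a _ => ?_
      refine congrArg (fun y : ℕ => (n : ℝ) - (y : ℝ)) (congrArg Finset.card ?_)
      ext y
      simp only [mem_image]
    refine sum_congr rfl fun T _ => ?_
    rw [← sum_mul]
    by_cases hT : T ⊆ E
    · rw [if_pos hT]
      simp only [eval_mul, eval_pow, eval_X, eval_prod, eval_sub, eval_C]
      congr 1
      rw [← card_const T i j n]
      have h5 : ∀ c : β → Fin n, ∏ a ∈ T,
          (if (N a).card = 2 ∧ c (i a) = c (j a) then (1 : ℝ) else 0) =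
          if ∀ a ∈ T, c (i a) = c (j a) then 1 else 0 := by
        intro c
        by_cases h6 : ∀ a ∈ T, c (i a) = c (j a)
        · rw [if_pos h6]
          refine prod_eq_one fun a ha => if_pos ⟨?_, h6 a ha⟩
          have := hT ha
          rw [hE] at this
          exact (mem_filter.1 this).2
        · rw [if_neg h6]
          push Not at h6
          obtain ⟨a, ha, h7⟩ := h6
          exact prod_eq_zero ha (if_neg fun h8 => h7 h8.2)
      rw [sum_congr rfl fun c _ => h5 c, sum_boole]
    · rw [if_neg hT, eval_zero]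
      have h5 : ∑ c : β → Fin n, ∏ a ∈ T,
          (if (N a).card = 2 ∧ c (i a) = c (j a) then (1 : ℝ) else 0) = 0 := by
        refine sum_eq_zero fun c _ => ?_
        obtain ⟨a, ha, h6⟩ := not_subset.1 hT
        refine prod_eq_zero ha (if_neg fun h7 => h6 ?_)
        rw [hE]
        exact mem_filter.2 ⟨mem_univ a, h7.1⟩
      rw [h5, zero_mul]
  rw [hPQ, eval_finsetSum]
  have hterm : ∀ T : Finset α, 0 ≤ (if T ⊆ E then
      X ^ Nat.card (Quotient (gen T i j)) * ∏ a ∈ univ \ T, (X - C ((N a).card : ℝ)) else 0 :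
        ℝ[X]).eval q := by
    intro T
    split_ifs
    · simp only [eval_mul, eval_pow, eval_X, eval_prod, eval_sub, eval_C]
      exact mul_nonneg (pow_nonneg hq0.le _) (prod_nonneg fun a _ => by linarith [hq a])
    · simp
  refine lt_of_lt_of_le ?_ (single_le_sum (f := fun T : Finset α => (if T ⊆ E then
      X ^ Nat.card (Quotient (gen T i j)) * ∏ a ∈ univ \ T, (X - C ((N a).card : ℝ)) else 0 :
        ℝ[X]).eval q) (fun T _ => hterm T) (empty_mem_powerset univ))
  rw [if_pos (empty_subset E)]
  simp only [eval_mul, eval_pow, eval_X, eval_prod, eval_sub, eval_C]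
  exact mul_pos (pow_pos hq0 _) (prod_pos fun a _ => by linarith [hq a])

end Pool.Agent.P8H87.SK
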