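import Pool.Agent.P8H87.SK.Pos
import Pool.Agent.P8H87.SK.Two

/-!
# Contraction of the pairs, and the sets with at least three elements
-/

set_option autoImplicit false

namespace Pool.Agent.P8H87.SK

open Finset Polynomial

open scoped Classical in
/-- the colourings with equal colours on the pairs of `T` -/
noncomputable def Fc {α β : Type} [Fintype β] (T : Finset α) (i j : α → β) (n : ℕ) :
    Finset (β → Fin n) := univ.filter fun c => ∀ a ∈ T, c (i a) = c (j a)

lemma mem_Fc {α β : Type} [Fintype β] {T : Finset α} {i j : α → β} {n : ℕ} {c : β → Fin n} :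
    c ∈ Fc T i j n ↔ ∀ a ∈ T, c (i a) = c (j a) := by
  unfold Fc
  simp

open scoped Classical in
lemma exists_poly {α β : Type} [Fintype α] [Fintype β] (N : α → Finset β) :
    ∃ P : ℝ[X], ∀ n : ℕ, P.eval (n : ℝ) = ∑ c : β → Fin n, Phi N (n : ℝ) c := by
  have h1 : ∀ k, ∃ R : ℝ[X], ∀ x, R.eval x = Vk N x k := by
    intro k
    have h2 : ∀ c : β → Fin k, ∃ R : ℝ[X], ∀ x, R.eval x = Phi N x c := fun c => Phi_poly N c
    choose R hR using h2
    refine ⟨∑ c ∈ Sj β k, R c, fun x => ?_⟩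
    rw [eval_finsetSum]
    unfold Vk
    exact sum_congr rfl fun c _ => hR c x
  choose R hR using h1
  refine ⟨∑ k ∈ range (Fintype.card β + 1),
      C ((k.factorial : ℝ)⁻¹) * descPochhammer ℝ k * R k, fun n => ?_⟩
  rw [sum_eq_Vk, eval_finsetSum]
  refine sum_congr rfl fun k _ => ?_
  rw [eval_mul, eval_mul, eval_C, hR, descPochhammer_eval_eq_descFactorial,
    Nat.descFactorial_eq_factorial_mul_choose]
  push_cast
  have : (k.factorial : ℝ) ≠ 0 := by exact_mod_cast k.factorial_ne_zero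
  field_simp

open scoped Classical in
lemma Phi_image {α β γ δ : Type} [Fintype α] (N : α → Finset β) (x : ℝ) (p : β → γ)
    (g : γ → δ) : Phi (fun a => (N a).image p) x g = Phi N x (g ∘ p) := by
  unfold Phi
  refine prod_congr rfl fun a _ => ?_
  rw [image_image]

open scoped Classical in
lemma sum_pairs_eq {α α' β γ : Type} [Fintype α'] [Fintype β] [Fintype γ] (T : Finset α)
    (i j : α → β) (p : β → γ) (hs : Function.Surjective p) (h1 : ∀ a ∈ T, p (i a) = p (j a))
    {n : ℕ} (h2 : ∀ c : β → Fin n, (∀ a ∈ T, c (i a) = c (j a)) → ∀ u v, p u = p v → c u = c v)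
    (N : α' → Finset β) (x : ℝ) :
    ∑ c ∈ Fc T i j n, Phi N x c =
      ∑ g : γ → Fin n, Phi (fun a => (N a).image p) x g := by
  symm
  refine sum_bij (fun g _ => g ∘ p) ?_ ?_ ?_ ?_
  · intro g _
    exact mem_Fc.2 fun a ha => congrArg g (h1 a ha)
  · intro g _ g' _ h
    funext q
    obtain ⟨b, rfl⟩ := hs q
    exact congrFun h b
  · intro c hc
    have hc' := mem_Fc.1 hc
    choose r hr using hs
    refine ⟨fun q => c (r q), mem_univ _, ?_⟩
    funext b
    exact h2 c hc' _ _ (hr (p b))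
  · intro g _
    exact Phi_image N x _ g

lemma exists_quot {α β : Type} [Fintype β] (T : Finset α) (i j : α → β) :
    ∃ (γ : Type) (_ : Fintype γ) (p : β → γ), Function.Surjective p ∧
      (∀ a ∈ T, p (i a) = p (j a)) ∧ ∀ (n : ℕ) (c : β → Fin n),
        (∀ a ∈ T, c (i a) = c (j a)) → ∀ u v, p u = p v → c u = c v := by
  classical
  refine ⟨Quotient (gen T i j), inferInstance, Quotient.mk _, Quotient.mk_surjective, ?_, ?_⟩
  · intro a ha
    have h0 : (gen T i j) (i a) (j a) := Relation.EqvGen.rel _ _ ⟨a, ha, rfl, rfl⟩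
    exact Quotient.sound h0
  · intro n c hc u v huv
    have h : Relation.EqvGen (fun u v => ∃ a ∈ T, i a = u ∧ j a = v) u v := Quotient.exact huv
    clear huv
    induction h with
    | rel u v h =>
      obtain ⟨a, ha, rfl, rfl⟩ := h
      exact hc a ha
    | refl u => rfl
    | symm u v _ ih => exact ih.symm
    | trans u v w _ _ ih1 ih2 => exact ih1.trans ih2

open scoped Classical in
lemma sum_free {α γ : Type} [Fintype α] [Fintype γ] (N : α → Finset γ) (U : Finset γ)
    (hU : ∀ a, N a ⊆ U) (n : ℕ) (x : ℝ) :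
    ∑ g : γ → Fin n, Phi N x g = (n : ℝ) ^ (Fintype.card {u : γ // ¬ u ∈ U}) *
      ∑ g : {u : γ // u ∈ U} → Fin n, Phi (fun a => (N a).subtype (fun u => u ∈ U)) x g := by
  have h1 : ∑ g : γ → Fin n, Phi N x g =
      ∑ p : ({u : γ // u ∈ U} → Fin n) × ({u : γ // ¬ u ∈ U} → Fin n),
        Phi (fun a => (N a).subtype (fun u => u ∈ U)) x p.1 := by
    refine Fintype.sum_equiv (Equiv.piEquivPiSubtypeProd (fun u => u ∈ U) (fun _ => Fin n)) _ _ ?_
    intro g
    unfold Phi
    refine prod_congr rfl fun a _ => ?_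
    refine congrArg (fun y : ℕ => x - (y : ℝ)) (congrArg Finset.card ?_)
    ext y
    simp only [mem_image]
    constructor
    · rintro ⟨u, hu, rfl⟩
      exact ⟨⟨u, hU a hu⟩, mem_subtype.2 hu, rfl⟩
    · rintro ⟨u, hu, rfl⟩
      exact ⟨u.1, mem_subtype.1 hu, rfl⟩
  rw [h1, Fintype.sum_prod_type, mul_sum]
  refine sum_congr rfl fun g _ => ?_
  show ∑ _y : {u : γ // ¬ u ∈ U} → Fin n, Phi (fun a => (N a).subtype (fun u => u ∈ U)) x g = _
  rw [sum_const, card_univ, Fintype.card_fun, Fintype.card_fin, nsmul_eq_mul]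
  push_cast
  rfl

open scoped Classical in
lemma RT {α α' β : Type} [Fintype α'] [Fintype β] (T : Finset α) (i j : α → β)
    (N : α' → Finset β) {x : ℝ} (hx : ∀ a, ((N a).card : ℝ) < x) (hx1 : 1 ≤ x)
    (hb : (univ.biUnion N).card ≤ 2 * (⌊x⌋₊ + 1)) :
    ∃ R : ℝ[X], (∀ n : ℕ, R.eval (n : ℝ) =
      ∑ c ∈ Fc T i j n, Phi N (n : ℝ) c) ∧
      0 < R.eval x := by
  obtain ⟨γ, hγ, p, hp, hp1, hp2⟩ := exists_quot T i j
  obtain ⟨N', hN'⟩ : ∃ N' : α' → Finset γ, N' = fun a => (N a).image p := ⟨_, rfl⟩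
  obtain ⟨U, hU⟩ : ∃ U : Finset γ, U = univ.biUnion N' := ⟨_, rfl⟩
  have hU' : ∀ a, N' a ⊆ U := fun a => by
    rw [hU]
    exact subset_biUnion_of_mem N' (mem_univ a)
  have hcU : U.card ≤ (univ.biUnion N).card := by
    refine le_trans (card_le_card (t := (univ.biUnion N).image p) ?_)
      card_image_le
    intro q hq
    rw [hU, mem_biUnion] at hq
    obtain ⟨a, _, ha⟩ := hq
    rw [hN'] at ha
    obtain ⟨b, hb, rfl⟩ := mem_image.1 ha
    exact mem_image_of_mem _ (mem_biUnion.2 ⟨a, mem_univ _, hb⟩)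
  obtain ⟨R0, hR0⟩ := exists_poly (fun a => (N' a).subtype (fun u => u ∈ U))
  refine ⟨X ^ (Fintype.card {u : γ // ¬ u ∈ U}) * R0, fun n => ?_, ?_⟩
  · rw [eval_mul, eval_pow, eval_X, hR0, sum_pairs_eq T i j p hp hp1 (hp2 n), ← hN',
      sum_free N' U hU']
    refine congrArg (fun z : ℝ => (n : ℝ) ^ (Fintype.card {u : γ // ¬ u ∈ U}) * z)
      (sum_congr ?_ fun _ _ => rfl)
    ext g
    simp only [mem_univ]
  · rw [eval_mul, eval_pow, eval_X]
    refine mul_pos (pow_pos (by linarith) _) ?_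
    refine small_pos hR0 (fun a => ?_) hx1 ?_
    · refine lt_of_le_of_lt ?_ (hx a)
      have h1 : ((N' a).subtype (fun u => u ∈ U)).card ≤ (N' a).card := by
        rw [card_subtype]
        exact card_filter_le _ _
      have h2 : (N' a).card ≤ (N a).card := by
        rw [hN']
        exact card_image_le
      exact_mod_cast h1.trans h2
    · rw [Fintype.card_coe]
      exact hcU.trans hb

open scoped Classical in
theorem mix_aux {α α' β : Type} [Fintype α] [Fintype α'] [Fintype β] {N : α → Finset β}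
    (h2 : ∀ a, (N a).card ≤ 2) {N3 : α' → Finset β} {P : ℝ[X]}
    (hP : ∀ n : ℕ, P.eval (n : ℝ) = ∑ c : β → Fin n, Phi N (n : ℝ) c * Phi N3 (n : ℝ) c) {q : ℝ}
    (hq : ∀ a, ((N a).card : ℝ) < q) (b0 : β)
    (hR : ∀ (T : Finset α) (i j : α → β), ∃ R : ℝ[X], (∀ n : ℕ, R.eval (n : ℝ) =
      ∑ c ∈ Fc T i j n, Phi N3 (n : ℝ) c) ∧
      0 < R.eval q) : 0 < P.eval q := by
  obtain ⟨E, hE⟩ : ∃ E : Finset α, E = univ.filter fun a => (N a).card = 2 := ⟨_, rfl⟩
  have hex : ∀ a, ∃ u v : β, (N a).card = 2 → u ≠ v ∧ N a = {u, v} := by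
    intro a
    by_cases h : (N a).card = 2
    · obtain ⟨u, v, huv, hN⟩ := card_eq_two.1 h
      exact ⟨u, v, fun _ => ⟨huv, hN⟩⟩
    · exact ⟨b0, b0, fun h' => absurd h' h⟩
  choose i j hN using hex
  have hR' : ∀ T : Finset α, ∃ R : ℝ[X], (∀ n : ℕ, R.eval (n : ℝ) =
      ∑ c ∈ Fc T i j n, Phi N3 (n : ℝ) c) ∧
      0 < R.eval q := fun T => hR T i j
  choose R hR1 hR2 using hR'
  have hfac : ∀ (n : ℕ) (c : β → Fin n) (a : α), (n : ℝ) - ((N a).image c).card =
      (if (N a).card = 2 ∧ c (i a) = c (j a) then 1 else 0) + ((n : ℝ) - (N a).card) := by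
    intro n c a
    by_cases h : (N a).card = 2
    · obtain ⟨h3, h4⟩ := hN a h
      rw [h]
      by_cases h5 : c (i a) = c (j a)
      · rw [if_pos ⟨rfl, h5⟩, h4, image_insert, image_singleton, h5]
        simp
        ring
      · rw [if_neg (fun h6 => h5 h6.2), h4, image_insert, image_singleton, card_pair h5]
        ring
    · rw [if_neg (fun h6 => h h6.1), zero_add]
      have h3 : (N a).card ≤ 1 := by
        have := h2 a
        omega
      congr 2
      rw [card_image_iff]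
      intro x hx y hy _
      exact card_le_one.1 h3 x hx y hy
  have hPQ : P = ∑ T ∈ (univ : Finset α).powerset, (if T ⊆ E then
      R T * ∏ a ∈ univ \ T, (X - C ((N a).card : ℝ)) else 0) := by
    apply poly_eq
    intro n
    rw [hP, eval_finsetSum]
    have h3 : ∀ c : β → Fin n, Phi N (n : ℝ) c =
        ∑ T ∈ (univ : Finset α).powerset, (∏ a ∈ T,
          (if (N a).card = 2 ∧ c (i a) = c (j a) then (1 : ℝ) else 0)) *
          ∏ a ∈ univ \ T, ((n : ℝ) - (N a).card) := by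
      intro c
      rw [← prod_add]
      unfold Phi
      refine prod_congr rfl fun a _ => ?_
      rw [← hfac n c a]
      refine congrArg (fun y : ℕ => (n : ℝ) - (y : ℝ)) (congrArg Finset.card ?_)
      ext y
      simp only [mem_image]
    have h4 : ∑ c : β → Fin n, Phi N (n : ℝ) c * Phi N3 (n : ℝ) c =
        ∑ T ∈ (univ : Finset α).powerset, ∑ c : β → Fin n, ((∏ a ∈ T,
          (if (N a).card = 2 ∧ c (i a) = c (j a) then (1 : ℝ) else 0)) *
          ∏ a ∈ univ \ T, ((n : ℝ) - (N a).card)) * Phi N3 (n : ℝ) c := by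
      rw [sum_comm]
      refine sum_congr rfl fun c _ => ?_
      rw [h3 c, sum_mul]
    rw [h4]
    refine sum_congr rfl fun T _ => ?_
    by_cases hT : T ⊆ E
    · rw [if_pos hT, eval_mul, hR1 T n, sum_mul]
      simp only [eval_prod, eval_sub, eval_X, eval_C]
      unfold Fc
      rw [sum_filter]
      refine sum_congr rfl fun c _ => ?_
      by_cases h6 : ∀ a ∈ T, c (i a) = c (j a)
      · rw [if_pos h6]
        have h7 : ∏ a ∈ T, (if (N a).card = 2 ∧ c (i a) = c (j a) then (1 : ℝ) else 0) = 1 := by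
          refine prod_eq_one fun a ha => if_pos ⟨?_, h6 a ha⟩
          have := hT ha
          rw [hE] at this
          exact (mem_filter.1 this).2
        rw [h7]
        ring
      · rw [if_neg h6]
        push Not at h6
        obtain ⟨a, ha, h7⟩ := h6
        have h8 : ∏ a ∈ T, (if (N a).card = 2 ∧ c (i a) = c (j a) then (1 : ℝ) else 0) = 0 :=
          prod_eq_zero ha (if_neg fun h8 => h7 h8.2)
        rw [h8]
        ring
    · rw [if_neg hT, eval_zero]
      refine sum_eq_zero fun c _ => ?_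
      obtain ⟨a, ha, h6⟩ := not_subset.1 hT
      have h8 : ∏ a ∈ T, (if (N a).card = 2 ∧ c (i a) = c (j a) then (1 : ℝ) else 0) = 0 := by
        refine prod_eq_zero ha (if_neg fun h7 => h6 ?_)
        rw [hE]
        exact mem_filter.2 ⟨mem_univ a, h7.1⟩
      rw [h8]
      ring
  rw [hPQ, eval_finsetSum]
  have hterm : ∀ T : Finset α, 0 ≤ (if T ⊆ E then
      R T * ∏ a ∈ univ \ T, (X - C ((N a).card : ℝ)) else 0 : ℝ[X]).eval q := by
    intro T
    split_ifs
    · simp only [eval_mul, eval_X, eval_prod, eval_sub, eval_C]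
      exact mul_nonneg (hR2 T).le (prod_nonneg fun a _ => by linarith [hq a])
    · simp
  refine lt_of_lt_of_le ?_ (single_le_sum (f := fun T : Finset α => (if T ⊆ E then
      R T * ∏ a ∈ univ \ T, (X - C ((N a).card : ℝ)) else 0 :
        ℝ[X]).eval q) (fun T _ => hterm T) (empty_mem_powerset univ))
  rw [if_pos (empty_subset E)]
  simp only [eval_mul, eval_X, eval_prod, eval_sub, eval_C]
  exact mul_pos (hR2 ∅) (prod_pos fun a _ => by linarith [hq a])

open scoped Classical in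
lemma Phi_split {α β γ : Type} [Fintype α] (p : α → Prop) (N : α → Finset β) (x : ℝ)
    (c : β → γ) : Phi (fun a : {a : α // p a} => N a.1) x c *
      Phi (fun a : {a : α // ¬ p a} => N a.1) x c = Phi N x c := by
  unfold Phi
  exact Fintype.prod_subtype_mul_prod_subtype p (fun a => x - ((N a).image c).card)

open scoped Classical in
/-- the positivity when few points lie in a set with at least three elements -/
theorem mix_pos {α β : Type} [Fintype α] [Fintype β] {N : α → Finset β} {P : ℝ[X]}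
    (hP : ∀ n : ℕ, P.eval (n : ℝ) = ∑ c : β → Fin n, Phi N (n : ℝ) c) {x : ℝ}
    (hx : ∀ a, ((N a).card : ℝ) < x) (hx0 : 0 < x)
    (hb : (univ.filter fun b : β => ∃ a, b ∈ N a ∧ 3 ≤ (N a).card).card ≤ 2 * (⌊x⌋₊ + 1)) :
    0 < P.eval x := by
  by_cases h3 : ∃ a, 3 ≤ (N a).card
  swap
  · push Not at h3
    exact two_pos (fun a => by have := h3 a; omega) hP hx hx0
  obtain ⟨a0, ha0⟩ := h3
  have hx1 : 1 ≤ x := by
    have h4 : (3 : ℝ) ≤ (N a0).card := by exact_mod_cast ha0
    linarith [hx a0]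
  obtain ⟨b0, hb0⟩ : (N a0).Nonempty := card_pos.1 (by omega)
  obtain ⟨p, hp⟩ : ∃ p : α → Prop, ∀ a, p a ↔ (N a).card ≤ 2 := ⟨_, fun a => Iff.rfl⟩
  obtain ⟨M, hM⟩ : ∃ M : {a : α // p a} → Finset β, M = fun a => N a.1 := ⟨_, rfl⟩
  obtain ⟨M', hM'⟩ : ∃ M' : {a : α // ¬ p a} → Finset β, M' = fun a => N a.1 := ⟨_, rfl⟩
  have hR : ∀ (T : Finset {a : α // p a}) (i j : {a : α // p a} → β),
      ∃ R : ℝ[X], (∀ n : ℕ, R.eval (n : ℝ) =
      ∑ c ∈ Fc T i j n,
        Phi M' (n : ℝ) c) ∧ 0 < R.eval x := by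
    intro T i j
    refine RT T i j M' (fun a => by rw [hM']; exact hx a.1) hx1 (le_trans (card_le_card ?_) hb)
    intro b hb'
    obtain ⟨a, _, ha⟩ := mem_biUnion.1 hb'
    rw [hM'] at ha
    have h4 := a.2
    rw [hp] at h4
    have h5 : 3 ≤ (N a.1).card := by omega
    exact mem_filter.2 ⟨mem_univ _, ⟨a.1, ha, h5⟩⟩
  have hP' : ∀ n : ℕ, P.eval (n : ℝ) = ∑ c : β → Fin n,
      Phi M (n : ℝ) c * Phi M' (n : ℝ) c := by
    intro n
    rw [hP, hM, hM']
    exact sum_congr rfl fun c _ => (Phi_split p N (n : ℝ) c).symm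
  have h2 : ∀ a, (M a).card ≤ 2 := fun a => by
    rw [hM]
    exact (hp a.1).1 a.2
  exact mix_aux h2 hP' (fun a => by rw [hM]; exact hx a.1) b0 hR

open scoped Classical in
/-- the same with a bound for all finite sets of such points -/
theorem mix_pos' {α β : Type} [Fintype α] [Fintype β] {N : α → Finset β} {P : ℝ[X]}
    (hP : ∀ n : ℕ, P.eval (n : ℝ) = ∑ c : β → Fin n, Phi N (n : ℝ) c) {x : ℝ}
    (hx : ∀ a, ((N a).card : ℝ) < x) (hx0 : 0 < x)
    (hb : ∀ F : Finset β, (∀ b ∈ F, ∃ a, b ∈ N a ∧ 3 ≤ (N a).card) → F.card ≤ 2 * (⌊x⌋₊ + 1)) :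
    0 < P.eval x :=
  mix_pos hP hx hx0 (hb _ fun _ h => (mem_filter.1 h).2)

end Pool.Agent.P8H87.SK
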