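import Pool.Agent.P8H87.SK.Surj

/-!
# Positivity from the pairing of the terms
-/

set_option autoImplicit false

namespace Pool.Agent.P8H87.SK

open Finset Polynomial

variable {α β : Type} [Fintype α] [Fintype β]

open scoped Classical in
lemma sum_eq_Vk (N : α → Finset β) (n : ℕ) (x : ℝ) :
    ∑ c : β → Fin n, Phi N x c =
      ∑ k ∈ range (Fintype.card β + 1), (n.choose k : ℝ) * Vk N x k := by
  classical
  have h1 : ∑ c : β → Fin n, Phi N x c = ∑ S ∈ (univ : Finset (Fin n)).powerset,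
      ∑ c ∈ univ.filter (fun c : β → Fin n => univ.image c = S), Phi N x c := by
    rw [sum_fiberwise_of_maps_to]
    intro c _
    exact mem_powerset.2 (subset_univ _)
  have h2 : ∀ S : Finset (Fin n),
      ∑ c ∈ univ.filter (fun c : β → Fin n => univ.image c = S), Phi N x c = Vk N x S.card := by
    intro S
    symm
    unfold Vk
    refine sum_bij (fun f _ => (S.orderEmbOfFin rfl) ∘ f) ?_ ?_ ?_ ?_
    · intro f hf
      refine mem_filter.2 ⟨mem_univ _, ?_⟩
      rw [← image_image, image_univ_of_surjective (mem_Sj.1 hf), ← Finset.coe_inj]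
      simp
    · intro f _ g _ h
      funext u
      exact (S.orderEmbOfFin rfl).injective (congrFun h u)
    · intro c hc
      have hc' := (mem_filter.1 hc).2
      have hm : ∀ u, c u ∈ S := fun u => by
        rw [← hc']
        exact mem_image_of_mem _ (mem_univ _)
      have h3 : ∀ u, ∃ i, S.orderEmbOfFin rfl i = c u := by
        intro u
        have : c u ∈ Set.range (S.orderEmbOfFin rfl) := by
          rw [range_orderEmbOfFin]
          exact hm u
        exact this
      choose f hf using h3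
      refine ⟨f, mem_Sj.2 fun i => ?_, funext hf⟩
      have h4 : S.orderEmbOfFin rfl i ∈ univ.image c := by
        rw [hc']
        exact orderEmbOfFin_mem _ _ _
      obtain ⟨u, _, hu⟩ := mem_image.1 h4
      refine ⟨u, (S.orderEmbOfFin rfl).injective ?_⟩
      rw [hf u, hu]
    · intro f _
      exact (Phi_comp_inj N x f (S.orderEmbOfFin rfl).injective).symm
  rw [h1, sum_congr rfl fun S _ => h2 S, sum_powerset_apply_card (fun k => Vk N x k), card_univ,
    Fintype.card_fin]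
  have h3 : ∑ m ∈ range (n + 1), n.choose m • Vk N x m =
      ∑ k ∈ range (n + Fintype.card β + 1), (n.choose k : ℝ) * Vk N x k := by
    rw [sum_congr rfl fun m _ => nsmul_eq_mul (n.choose m) (Vk N x m)]
    refine sum_subset (range_subset_range.2 (by omega)) fun k _ hk => ?_
    rw [mem_range] at hk
    rw [Nat.choose_eq_zero_of_lt (by omega)]
    simp
  rw [h3]
  symm
  refine sum_subset (range_subset_range.2 (by omega)) fun k _ hk => ?_
  rw [mem_range] at hk
  rw [Vk_zero N x (by omega), mul_zero]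

/-- the terms -/
noncomputable def Tk (N : α → Finset β) (x : ℝ) (k : ℕ) : ℝ :=
  ((k.factorial : ℝ)⁻¹ * (descPochhammer ℝ k).eval x) * Vk N x k

omit [Fintype β] in
lemma Phi_poly {γ : Type} [Fintype γ] (N : α → Finset β) (c : β → γ) :
    ∃ R : ℝ[X], ∀ x, R.eval x = Phi N x c := by
  classical
  refine ⟨∏ a, (X - C ((@Finset.image β γ (fun a b => Classical.propDecidable (a = b)) c
    (N a)).card : ℝ)), fun x => ?_⟩
  rw [eval_prod]
  unfold Phi
  refine prod_congr rfl fun a _ => ?_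
  rw [eval_sub, eval_X, eval_C]

open scoped Classical in
lemma eval_eq {N : α → Finset β} {P : ℝ[X]}
    (hP : ∀ n : ℕ, P.eval (n : ℝ) = ∑ c : β → Fin n, Phi N (n : ℝ) c) (x : ℝ) :
    P.eval x = ∑ k ∈ range (Fintype.card β + 1), Tk N x k := by
  have h1 : ∀ k, ∃ R : ℝ[X], ∀ x, R.eval x = Vk N x k := by
    intro k
    have h2 : ∀ c : β → Fin k, ∃ R : ℝ[X], ∀ x, R.eval x = Phi N x c := fun c => Phi_poly N c
    choose R hR using h2
    refine ⟨∑ c ∈ Sj β k, R c, fun x => ?_⟩
    rw [eval_finsetSum]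
    unfold Vk
    exact sum_congr rfl fun c _ => hR c x
  choose R hR using h1
  have h2 : P = ∑ k ∈ range (Fintype.card β + 1),
      C ((k.factorial : ℝ)⁻¹) * descPochhammer ℝ k * R k := by
    apply poly_eq
    intro n
    rw [hP, sum_eq_Vk, eval_finsetSum]
    refine sum_congr rfl fun k _ => ?_
    rw [eval_mul, eval_mul, eval_C, hR, descPochhammer_eval_eq_descFactorial,
      Nat.descFactorial_eq_factorial_mul_choose]
    push_cast
    have : (k.factorial : ℝ) ≠ 0 := by exact_mod_cast k.factorial_ne_zero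
    field_simp
  rw [h2, eval_finsetSum]
  refine sum_congr rfl fun k _ => ?_
  rw [eval_mul, eval_mul, eval_C, hR]
  rfl

lemma dp_nonneg {x : ℝ} {m : ℕ} (h1 : (m : ℝ) ≤ x) (k : ℕ) (hk : k ≤ m + 1) :
    0 ≤ (descPochhammer ℝ k).eval x := by
  induction k with
  | zero => simp
  | succ k ih =>
    rw [descPochhammer_succ_eval]
    refine mul_nonneg (ih (by omega)) ?_
    have : (k : ℝ) ≤ m := by exact_mod_cast (by omega : k ≤ m)
    linarith

lemma dp_even {x : ℝ} {m : ℕ} (h1 : (m : ℝ) ≤ x) (h2 : x < m + 1) (i : ℕ) :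
    0 ≤ (descPochhammer ℝ (m + 1 + 2 * i)).eval x := by
  induction i with
  | zero => exact dp_nonneg h1 _ le_rfl
  | succ i ih =>
    have h3 : m + 1 + 2 * (i + 1) = (m + 1 + 2 * i) + 1 + 1 := by ring
    rw [h3, descPochhammer_succ_eval, descPochhammer_succ_eval, mul_assoc]
    refine mul_nonneg ih ?_
    have h4 : (0 : ℝ) ≤ i := Nat.cast_nonneg i
    push_cast
    nlinarith

lemma Tk_pair {N : α → Finset β} {x : ℝ} (hx : ∀ a, ((N a).card : ℝ) ≤ x) {m : ℕ}
    (h1 : (m : ℝ) ≤ x) (h2 : x < m + 1) (hb : Fintype.card β ≤ 2 * (m + 1)) (i : ℕ) :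
    0 ≤ Tk N x (m + 1 + 2 * i) + Tk N x (m + 1 + (2 * i + 1)) := by
  obtain ⟨k, hk⟩ : ∃ k : ℕ, k = m + 1 + 2 * i := ⟨_, rfl⟩
  have hD : 0 ≤ (descPochhammer ℝ k).eval x := by
    rw [hk]
    exact dp_even h1 h2 i
  rw [← add_assoc, ← hk]
  have hkr : (k : ℝ) = m + 1 + 2 * i := by
    rw [hk]
    push_cast
    ring
  have hV := Vk_succ hx k
  have hV0 := Vk_nonneg hx k
  have hV1 := Vk_nonneg hx (k + 1)
  have hi : (0 : ℝ) ≤ i := Nat.cast_nonneg i
  have hm : (0 : ℝ) ≤ m := Nat.cast_nonneg m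
  have hbr : (Fintype.card β : ℝ) ≤ 2 * (m + 1) := by exact_mod_cast hb
  have hk0 : (0 : ℝ) < k := by
    rw [hkr]
    linarith
  -- the comparison
  have h3 : (2 * (i : ℝ) + 1) * Vk N x (k + 1) ≤ (k + 1) * Vk N x k := by
    have h4 : (k : ℝ) * (2 * (2 * i + 1)) * Vk N x (k + 1) ≤
        (k : ℝ) * (2 * (k + 1) - Fintype.card β) * Vk N x (k + 1) := by
      refine mul_le_mul_of_nonneg_right (mul_le_mul_of_nonneg_left ?_ hk0.le) hV1
      linarith
    have h5 : ((k : ℝ) + 1) * Fintype.card β * Vk N x k ≤ (k + 1) * (2 * k) * Vk N x k := by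
      refine mul_le_mul_of_nonneg_right (mul_le_mul_of_nonneg_left ?_ (by linarith)) hV0
      linarith
    have h6 : (2 * k) * ((2 * (i : ℝ) + 1) * Vk N x (k + 1)) ≤
        (2 * k) * ((k + 1) * Vk N x k) := by linarith
    exact le_of_mul_le_mul_left h6 (by linarith)
  have h4 : (k - x) * Vk N x (k + 1) ≤ (2 * (i : ℝ) + 1) * Vk N x (k + 1) :=
    mul_le_mul_of_nonneg_right (by linarith) hV1
  have h5 : 0 ≤ (k + 1) * Vk N x k - (k - x) * Vk N x (k + 1) := by linarith
  have hf : (0 : ℝ) < k.factorial := by exact_mod_cast k.factorial_pos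
  have h6 : Tk N x k + Tk N x (k + 1) = (((k.factorial : ℝ)⁻¹ * (descPochhammer ℝ k).eval x) *
      ((k : ℝ) + 1)⁻¹) * ((k + 1) * Vk N x k - (k - x) * Vk N x (k + 1)) := by
    unfold Tk
    rw [descPochhammer_succ_eval, Nat.factorial_succ]
    push_cast
    have : (k : ℝ) + 1 ≠ 0 := by linarith
    field_simp
    ring
  rw [h6]
  refine mul_nonneg (mul_nonneg (mul_nonneg (inv_nonneg.2 hf.le) hD) ?_) h5
  exact inv_nonneg.2 (by linarith)

lemma sum_pairs {g : ℕ → ℝ} (h : ∀ i, 0 ≤ g (2 * i) + g (2 * i + 1)) (L : ℕ) :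
    0 ≤ ∑ i ∈ range (2 * L), g i := by
  induction L with
  | zero => simp
  | succ L ih =>
    rw [show 2 * (L + 1) = 2 * L + 1 + 1 by ring, sum_range_succ, sum_range_succ]
    linarith [h L]

open scoped Classical in
/-- positivity when the other side is small -/
theorem small_pos {N : α → Finset β} {P : ℝ[X]}
    (hP : ∀ n : ℕ, P.eval (n : ℝ) = ∑ c : β → Fin n, Phi N (n : ℝ) c) {x : ℝ}
    (hx : ∀ a, ((N a).card : ℝ) < x) (hx1 : 1 ≤ x) (hb : Fintype.card β ≤ 2 * (⌊x⌋₊ + 1))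
    : 0 < P.eval x := by
  obtain ⟨m, hm⟩ : ∃ m : ℕ, m = ⌊x⌋₊ := ⟨_, rfl⟩
  rw [← hm] at hb
  have h1 : (m : ℝ) ≤ x := by
    rw [hm]
    exact Nat.floor_le (by linarith)
  have h2 : x < m + 1 := by
    rw [hm]
    exact Nat.lt_floor_add_one x
  have hm1 : 1 ≤ m := by
    rw [hm]
    exact Nat.le_floor (by exact_mod_cast hx1)
  rw [eval_eq hP]
  have hx' : ∀ a, ((N a).card : ℝ) ≤ x := fun a => (hx a).le
  have h3 : ∑ k ∈ range (Fintype.card β + 1), Tk N x k =
      ∑ k ∈ range (m + 1 + 2 * (Fintype.card β + 1)), Tk N x k := by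
    refine sum_subset (range_subset_range.2 (by omega)) fun k _ hk => ?_
    rw [mem_range] at hk
    unfold Tk
    rw [Vk_zero N x (by omega), mul_zero]
  rw [h3, sum_range_add]
  have h4 : 0 ≤ ∑ i ∈ range (2 * (Fintype.card β + 1)), Tk N x (m + 1 + i) :=
    sum_pairs (g := fun i => Tk N x (m + 1 + i)) (fun i => Tk_pair hx' h1 h2 hb i) _
  have h5 : ∀ k ∈ range (m + 1), 0 ≤ Tk N x k := by
    intro k hk
    rw [mem_range] at hk
    unfold Tk
    exact mul_nonneg (mul_nonneg (inv_nonneg.2 (Nat.cast_nonneg _)) (dp_nonneg h1 k (by omega)))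
      (Vk_nonneg hx' k)
  have h6 : ∃ k ∈ range (m + 1), 0 < Tk N x k := by
    rcases isEmpty_or_nonempty β with hβ | ⟨⟨b0⟩⟩
    · refine ⟨0, mem_range.2 (by omega), ?_⟩
      unfold Tk Vk
      have h7 : ∃ f : β → Fin 0, f ∈ Sj β 0 := ⟨fun b => (hβ.false b).elim, mem_Sj.2 fun y => y.elim0⟩
      have h8 : 0 < ∑ f ∈ Sj β 0, Phi N x f :=
        sum_pos (fun f _ => Phi_pos hx f) h7
      simpa using h8
    · refine ⟨1, mem_range.2 (by omega), ?_⟩
      unfold Tk Vk
      have h7 : ∃ f : β → Fin 1, f ∈ Sj β 1 :=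
        ⟨fun b => 0, mem_Sj.2 fun y => ⟨b0, Subsingleton.elim _ _⟩⟩
      have h8 : 0 < ∑ f ∈ Sj β 1, Phi N x f :=
        sum_pos (fun f _ => Phi_pos hx f) h7
      have h9 : (descPochhammer ℝ 1).eval x = x := by simp
      rw [h9]
      simp only [Nat.factorial_one, Nat.cast_one, inv_one, one_mul]
      exact mul_pos (by linarith) h8
  have h7 : 0 < ∑ k ∈ range (m + 1), Tk N x k := by
    obtain ⟨k, hk, hk'⟩ := h6
    exact sum_pos' h5 ⟨k, hk, hk'⟩
  linarith

end Pool.Agent.P8H87.SK
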