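import Pool.Agent.P8H87.SK.Col

/-!
# Surjective colourings of one side
-/

set_option autoImplicit false

namespace Pool.Agent.P8H87.SK

open Finset

variable {α β : Type} [Fintype α]

lemma Phi_nonneg {γ : Type} {N : α → Finset β} {x : ℝ} (hx : ∀ a, ((N a).card : ℝ) ≤ x)
    (c : β → γ) : 0 ≤ Phi N x c := by
  classical
  unfold Phi
  refine prod_nonneg fun a _ => ?_
  have h1 : ∀ (I : DecidableEq γ), ((@Finset.image β γ I c (N a)).card : ℝ) ≤ (N a).card :=
    fun I => by exact_mod_cast card_image_le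
  have := h1 (fun a b => Classical.propDecidable (a = b))
  linarith [hx a]

lemma Phi_pos {γ : Type} {N : α → Finset β} {x : ℝ} (hx : ∀ a, ((N a).card : ℝ) < x)
    (c : β → γ) : 0 < Phi N x c := by
  classical
  unfold Phi
  refine prod_pos fun a _ => ?_
  have h1 : ∀ (I : DecidableEq γ), ((@Finset.image β γ I c (N a)).card : ℝ) ≤ (N a).card :=
    fun I => by exact_mod_cast card_image_le
  have := h1 (fun a b => Classical.propDecidable (a = b))
  linarith [hx a]

lemma Phi_le_comp {γ δ : Type} {N : α → Finset β} {x : ℝ} (hx : ∀ a, ((N a).card : ℝ) ≤ x)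
    (c : β → γ) (h : γ → δ) : Phi N x c ≤ Phi N x (h ∘ c) := by
  classical
  unfold Phi
  refine prod_le_prod (fun a _ => ?_) (fun a _ => ?_)
  · have h1 : ∀ (I : DecidableEq γ), ((@Finset.image β γ I c (N a)).card : ℝ) ≤ (N a).card :=
      fun I => by exact_mod_cast card_image_le
    have := h1 (fun a b => Classical.propDecidable (a = b))
    linarith [hx a]
  · have h1 : ∀ (I : DecidableEq γ) (J : DecidableEq δ),
        ((@Finset.image β δ J (h ∘ c) (N a)).card : ℝ) ≤ (@Finset.image β γ I c (N a)).card := by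
      intro I J
      rw [← image_image]
      exact_mod_cast card_image_le
    have := h1 (fun a b => Classical.propDecidable (a = b))
      (fun a b => Classical.propDecidable (a = b))
    linarith

lemma Phi_comp_inj {γ δ : Type} (N : α → Finset β) (x : ℝ)
    (c : β → γ) {h : γ → δ} (hh : Function.Injective h) : Phi N x (h ∘ c) = Phi N x c := by
  classical
  unfold Phi
  refine prod_congr rfl fun a _ => ?_
  have h1 : ∀ (I : DecidableEq γ) (J : DecidableEq δ),
      (@Finset.image β δ J (h ∘ c) (N a)).card = (@Finset.image β γ I c (N a)).card := by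
    intro I J
    rw [← image_image]
    exact card_image_of_injective _ hh
  rw [h1 (fun a b => Classical.propDecidable (a = b))
      (fun a b => Classical.propDecidable (a = b))]

variable [Fintype β]

open scoped Classical in
/-- the surjective maps -/
noncomputable def Sj (β : Type) [Fintype β] (k : ℕ) : Finset (β → Fin k) :=
  univ.filter fun f => Function.Surjective f

lemma mem_Sj {k : ℕ} {f : β → Fin k} : f ∈ Sj β k ↔ Function.Surjective f := by
  unfold Sj
  simp

/-- the sum over the surjective maps -/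
noncomputable def Vk (N : α → Finset β) (x : ℝ) (k : ℕ) : ℝ := ∑ f ∈ Sj β k, Phi N x f

lemma Vk_nonneg {N : α → Finset β} {x : ℝ} (hx : ∀ a, ((N a).card : ℝ) ≤ x) (k : ℕ) :
    0 ≤ Vk N x k := sum_nonneg fun f _ => Phi_nonneg hx f

lemma Vk_zero (N : α → Finset β) (x : ℝ) {k : ℕ} (hk : Fintype.card β < k) : Vk N x k = 0 := by
  unfold Vk
  have : Sj β k = ∅ := by
    apply eq_empty_of_forall_notMem
    intro f hf
    have := Fintype.card_le_of_surjective f (mem_Sj.1 hf)
    rw [Fintype.card_fin] at this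
    omega
  rw [this, sum_empty]

open scoped Classical in
/-- the points which are alone in their class -/
noncomputable def sing {k : ℕ} (f : β → Fin k) : Finset β :=
  univ.filter fun v => ∀ u, f u = f v → u = v

lemma card_sing {k : ℕ} {f : β → Fin k} (hf : Function.Surjective f) :
    2 * k ≤ Fintype.card β + (sing f).card := by
  classical
  have h1 : Fintype.card β = ∑ y : Fin k, (univ.filter fun u => f u = y).card := by
    rw [← card_univ, card_eq_sum_card_fiberwise (f := f) (t := univ) (fun x _ => mem_coe.2 (mem_univ _))]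
  have h2 : ∀ y : Fin k, 2 ≤ (univ.filter fun u => f u = y).card +
      (if y ∈ (sing f).image f then 1 else 0) := by
    intro y
    obtain ⟨u, hu⟩ := hf y
    have h3 : 1 ≤ (univ.filter fun u => f u = y).card :=
      card_pos.2 ⟨u, mem_filter.2 ⟨mem_univ _, hu⟩⟩
    by_cases h : y ∈ (sing f).image f
    · rw [if_pos h]
      omega
    · rw [if_neg h]
      by_contra h4
      apply h
      refine mem_image.2 ⟨u, ?_, hu⟩
      unfold sing
      refine mem_filter.2 ⟨mem_univ _, fun w hw => ?_⟩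
      have h5 : (univ.filter fun u => f u = y).card ≤ 1 := by omega
      exact card_le_one.1 h5 w (mem_filter.2 ⟨mem_univ _, hw.trans hu⟩) u
        (mem_filter.2 ⟨mem_univ _, hu⟩)
  have h3 : ∑ _y : Fin k, 2 ≤ ∑ y : Fin k, ((univ.filter fun u => f u = y).card +
      (if y ∈ (sing f).image f then 1 else 0)) := sum_le_sum fun y _ => h2 y
  rw [sum_add_distrib, ← h1, sum_const, card_univ, Fintype.card_fin, smul_eq_mul] at h3
  have h4 : ∑ y : Fin k, (if y ∈ (sing f).image f then 1 else 0) ≤ (sing f).card := by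
    rw [← card_filter]
    refine le_trans (card_le_card ?_) (card_image_le (f := f))
    intro y hy
    exact (mem_filter.1 hy).2
  omega

/-- the map which puts the single point into another class -/
def mv {k : ℕ} (f : β → Fin (k + 1)) (v : β) (t : Fin k) : β → Fin k :=
  fun u => (finSuccEquiv' (f v) (f u)).getD t

omit [Fintype β] in
lemma mv_self {k : ℕ} (f : β → Fin (k + 1)) (v : β) (t : Fin k) : mv f v t v = t := by
  unfold mv
  rw [finSuccEquiv'_at]
  rfl

omit [Fintype β] in
lemma mv_of {k : ℕ} {f : β → Fin (k + 1)} {v : β} (t : Fin k) {u : β} {y : Fin k}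
    (h : f u = (f v).succAbove y) : mv f v t u = y := by
  unfold mv
  rw [h, finSuccEquiv'_succAbove]
  rfl

lemma mv_inj {k : ℕ} {f f' : β → Fin (k + 1)} {v : β} {t t' : Fin k} (hs : v ∈ sing f)
    (hs' : v ∈ sing f') (hi : f v = f' v) (hg : mv f v t = mv f' v t') : f = f' ∧ t = t' := by
  classical
  have ht : t = t' := by
    have := congrFun hg v
    rw [mv_self, mv_self] at this
    exact this
  refine ⟨?_, ht⟩
  funext u
  by_cases huv : u = v
  · rw [huv, hi]
  · have h5 : f u ≠ f v := fun h6 => huv ((mem_filter.1 hs).2 u h6)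
    have h5' : f' u ≠ f' v := fun h6 => huv ((mem_filter.1 hs').2 u h6)
    obtain ⟨y, hy⟩ := Fin.exists_succAbove_eq h5
    obtain ⟨y', hy'⟩ := Fin.exists_succAbove_eq h5'
    have h7 := congrFun hg u
    rw [mv_of t hy.symm, mv_of t' hy'.symm] at h7
    rw [← hy, ← hy', h7, hi]

omit [Fintype β] in
lemma mv_surj {k : ℕ} {f : β → Fin (k + 1)} (hf : Function.Surjective f) (v : β) (t : Fin k) :
    Function.Surjective (mv f v t) := by
  intro z
  obtain ⟨u, hu⟩ := hf ((f v).succAbove z)
  exact ⟨u, mv_of t hu⟩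

omit [Fintype β] in
lemma Phi_mv {N : α → Finset β} {x : ℝ} (hx : ∀ a, ((N a).card : ℝ) ≤ x) {k : ℕ}
    (f : β → Fin (k + 1)) (v : β) (t : Fin k) : Phi N x f ≤ Phi N x (mv f v t) :=
  Phi_le_comp hx f (fun y => (finSuccEquiv' (f v) y).getD t)

lemma mv_sum {N : α → Finset β} {x : ℝ} (hx : ∀ a, ((N a).card : ℝ) ≤ x) (k : ℕ) :
    ∑ f ∈ Sj β (k + 1), ((sing f).card : ℝ) * k * Phi N x f ≤
      ∑ g ∈ Sj β k, (Fintype.card β : ℝ) * (k + 1) * Phi N x g := by
  classical
  obtain ⟨X, hX⟩ : ∃ X : Finset ((β → Fin (k + 1)) × β × Fin k),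
    X = (Sj β (k + 1) ×ˢ univ).filter (fun p => p.2.1 ∈ sing p.1) := ⟨_, rfl⟩
  have h1 : ∑ f ∈ Sj β (k + 1), ((sing f).card : ℝ) * k * Phi N x f = ∑ p ∈ X, Phi N x p.1 := by
    rw [hX, sum_filter, sum_product]
    refine sum_congr rfl fun f _ => ?_
    rw [← univ_product_univ, sum_product]
    have h2 : ∀ v : β, ∑ t : Fin k, (if v ∈ sing f then Phi N x f else 0) =
        if v ∈ sing f then (k : ℝ) * Phi N x f else 0 := by
      intro v
      rw [sum_const, card_univ, Fintype.card_fin, nsmul_eq_mul]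
      split_ifs <;> simp
    rw [sum_congr rfl fun v _ => h2 v, ← sum_filter, sum_const, nsmul_eq_mul, filter_mem_eq_inter,
      univ_inter]
    ring
  have h2 : ∑ p ∈ X, Phi N x p.1 ≤ ∑ p ∈ X, Phi N x (mv p.1 p.2.1 p.2.2) :=
    sum_le_sum fun p _ => Phi_mv hx _ _ _
  obtain ⟨m, hm⟩ : ∃ m : (β → Fin (k + 1)) × β × Fin k → (β → Fin k) × β × Fin (k + 1),
    m = fun p => (mv p.1 p.2.1 p.2.2, p.2.1, p.1 p.2.1) := ⟨_, rfl⟩
  have h3 : ∑ p ∈ X, Phi N x (mv p.1 p.2.1 p.2.2) = ∑ y ∈ X.image m, Phi N x y.1 := by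
    rw [sum_image]
    · rw [hm]
    · rintro ⟨f, v, t⟩ hp ⟨f', v', t'⟩ hp' h
      rw [hX] at hp hp'
      have hs : v ∈ sing f := (mem_filter.1 hp).2
      have hs' : v' ∈ sing f' := (mem_filter.1 hp').2
      rw [hm] at h
      simp only [Prod.mk.injEq] at h
      obtain ⟨hg, hv, hi⟩ := h
      subst hv
      obtain ⟨h4, h5⟩ := mv_inj hs hs' hi hg
      rw [h4, h5]
  have h4 : ∑ y ∈ X.image m, Phi N x y.1 ≤ ∑ y ∈ Sj β k ×ˢ (univ : Finset (β × Fin (k + 1))),
      Phi N x y.1 := by
    refine sum_le_sum_of_subset_of_nonneg ?_ (fun y _ _ => Phi_nonneg hx _)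
    intro y hy
    obtain ⟨⟨f, v, t⟩, hp, rfl⟩ := mem_image.1 hy
    rw [hX] at hp
    have h5 := (mem_product.1 (mem_filter.1 hp).1).1
    rw [hm]
    exact mem_product.2 ⟨mem_Sj.2 (mv_surj (mem_Sj.1 h5) v t), mem_univ _⟩
  have h5 : ∑ y ∈ Sj β k ×ˢ (univ : Finset (β × Fin (k + 1))), Phi N x y.1 =
      ∑ g ∈ Sj β k, (Fintype.card β : ℝ) * (k + 1) * Phi N x g := by
    rw [sum_product]
    refine sum_congr rfl fun g _ => ?_
    show ∑ _y : β × Fin (k + 1), Phi N x g = _
    rw [sum_const, card_univ, Fintype.card_prod, Fintype.card_fin, nsmul_eq_mul]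
    push_cast
    ring
  linarith

lemma Vk_succ {N : α → Finset β} {x : ℝ} (hx : ∀ a, ((N a).card : ℝ) ≤ x) (k : ℕ) :
    (k : ℝ) * (2 * (k + 1) - Fintype.card β) * Vk N x (k + 1) ≤
      (k + 1) * Fintype.card β * Vk N x k := by
  have h1 : (k : ℝ) * (2 * (k + 1) - Fintype.card β) * Vk N x (k + 1) ≤
      ∑ f ∈ Sj β (k + 1), ((sing f).card : ℝ) * k * Phi N x f := by
    unfold Vk
    rw [mul_sum]
    refine sum_le_sum fun f hf => ?_
    refine mul_le_mul_of_nonneg_right ?_ (Phi_nonneg hx f)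
    have h2 : 2 * (k + 1) ≤ Fintype.card β + (sing f).card := card_sing (mem_Sj.1 hf)
    have h3 : (2 : ℝ) * (k + 1) ≤ Fintype.card β + (sing f).card := by exact_mod_cast h2
    have h4 : (0 : ℝ) ≤ k := Nat.cast_nonneg k
    have h5 : (2 : ℝ) * (k + 1) - Fintype.card β ≤ (sing f).card := by linarith
    calc (k : ℝ) * (2 * (k + 1) - Fintype.card β) ≤ k * (sing f).card :=
          mul_le_mul_of_nonneg_left h5 h4
      _ = (sing f).card * k := mul_comm _ _
  have h2 := mv_sum hx k
  have h3 : ∑ g ∈ Sj β k, (Fintype.card β : ℝ) * (k + 1) * Phi N x g =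
      (k + 1) * Fintype.card β * Vk N x k := by
    unfold Vk
    rw [mul_sum]
    refine sum_congr rfl fun g _ => ?_
    ring
  linarith

end Pool.Agent.P8H87.SK
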