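import Pool.Agent.P8H87.SK.Mix

/-!
# Few sets with at least three elements
-/

set_option autoImplicit false

namespace Pool.Agent.P8H87.SK

open Finset Polynomial

open scoped Classical in
lemma Phi_card {α β : Type} [Fintype α] (N : α → Finset β) {n : ℕ} (c : β → Fin n) :
    Phi N (n : ℝ) c =
      ((univ.filter fun f : α → Fin n => ∀ a, ∀ b ∈ N a, f a ≠ c b).card : ℝ) := by
  have h1 : (univ.filter fun f : α → Fin n => ∀ a, ∀ b ∈ N a, f a ≠ c b) =
      Fintype.piFinset fun a => univ \ (N a).image c := by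
    ext f
    simp only [mem_filter, mem_univ, true_and, Fintype.mem_piFinset, mem_sdiff, mem_image,
      not_exists, not_and]
    constructor
    · intro h a b hb hba
      exact h a b hb hba.symm
    · intro h a b hb hba
      exact h a b hb hba.symm
  rw [h1, Fintype.card_piFinset]
  push_cast
  unfold Phi
  refine prod_congr rfl fun a _ => ?_
  have h2 : ∀ (I J : DecidableEq (Fin n)), (n : ℝ) - (@Finset.image β (Fin n) I c (N a)).card =
      ((univ \ @Finset.image β (Fin n) J c (N a)).card : ℝ) := by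
    intro I J
    have h3 : I = J := Subsingleton.elim _ _
    subst h3
    have h4 := card_sdiff_add_card_eq_card (subset_univ (@Finset.image β (Fin n) I c (N a)))
    rw [card_univ, Fintype.card_fin] at h4
    have h5 : ((univ \ @Finset.image β (Fin n) I c (N a)).card : ℝ) +
        (@Finset.image β (Fin n) I c (N a)).card = n := by
      exact_mod_cast h4
    linarith
  rw [h2 (fun a b => Classical.propDecidable (a = b)) _]

open scoped Classical in
lemma swap {α β : Type} [Fintype α] [Fintype β] (N : α → Finset β) (n : ℕ) :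
    ∑ c : β → Fin n, Phi N (n : ℝ) c =
      ∑ f : α → Fin n, Phi (fun b => univ.filter fun a => b ∈ N a) (n : ℝ) f := by
  rw [sum_congr rfl fun c _ => Phi_card N c, sum_congr rfl fun f _ => Phi_card _ f]
  simp only [card_filter, Nat.cast_sum]
  rw [sum_comm]
  refine sum_congr rfl fun f _ => sum_congr rfl fun c _ => ?_
  have h1 : (∀ a, ∀ b ∈ N a, f a ≠ c b) ↔
      (∀ b, ∀ a ∈ (univ.filter fun a => b ∈ N a), c b ≠ f a) := by
    constructor
    · intro h b a hab hc
      exact h a b (mem_filter.1 hab).2 hc.symm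
    · intro h a b hab hc
      exact h b a (mem_filter.2 ⟨mem_univ _, hab⟩) hc.symm
  by_cases h2 : ∀ a, ∀ b ∈ N a, f a ≠ c b
  · rw [if_pos h2, if_pos (h1.1 h2)]
  · rw [if_neg h2, if_neg (fun h3 => h2 (h1.2 h3))]

lemma Phi_nonneg' {α β : Type} [Fintype α] (N : α → Finset β) {x : ℝ} {k : ℕ} (hk : (k : ℝ) ≤ x)
    (c : β → Fin k) : 0 ≤ Phi N x c := by
  classical
  unfold Phi
  refine prod_nonneg fun a _ => ?_
  have h1 : ∀ (I : DecidableEq (Fin k)), ((@Finset.image β (Fin k) I c (N a)).card : ℝ) ≤ k :=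
    fun I => by
      have := card_le_univ (@Finset.image β (Fin k) I c (N a))
      rw [Fintype.card_fin] at this
      exact_mod_cast this
  have := h1 (fun a b => Classical.propDecidable (a = b))
  linarith

lemma Phi_pos' {α β : Type} [Fintype α] (N : α → Finset β) {x : ℝ} {k : ℕ} (hk : (k : ℝ) < x)
    (c : β → Fin k) : 0 < Phi N x c := by
  classical
  unfold Phi
  refine prod_pos fun a _ => ?_
  have h1 : ∀ (I : DecidableEq (Fin k)), ((@Finset.image β (Fin k) I c (N a)).card : ℝ) ≤ k :=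
    fun I => by
      have := card_le_univ (@Finset.image β (Fin k) I c (N a))
      rw [Fintype.card_fin] at this
      exact_mod_cast this
  have := h1 (fun a b => Classical.propDecidable (a = b))
  linarith

open scoped Classical in
/-- positivity if there are few sets -/
theorem few_pos {α β : Type} [Fintype α] [Fintype β] {N : α → Finset β} {P : ℝ[X]}
    (hP : ∀ n : ℕ, P.eval (n : ℝ) = ∑ c : β → Fin n, Phi N (n : ℝ) c) {x : ℝ} (hx1 : 1 < x)
    (hs : (Fintype.card α : ℝ) ≤ x) : 0 < P.eval x := by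
  obtain ⟨M, hM⟩ : ∃ M : β → Finset α, M = fun b => univ.filter fun a => b ∈ N a := ⟨_, rfl⟩
  have hP' : ∀ n : ℕ, P.eval (n : ℝ) = ∑ f : α → Fin n, Phi M (n : ℝ) f := fun n => by
    rw [hM]
    exact (hP n).trans (swap N n)
  rw [eval_eq hP']
  have h5 : ∀ k ∈ range (Fintype.card α + 1), 0 ≤ Tk M x k := by
    intro k hk
    rw [mem_range] at hk
    have hk' : (k : ℝ) ≤ x := le_trans (by exact_mod_cast (by omega : k ≤ Fintype.card α)) hs
    unfold Tk
    exact mul_nonneg (mul_nonneg (inv_nonneg.2 (Nat.cast_nonneg _)) (dp_nonneg hk' k (by omega)))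
      (sum_nonneg fun f _ => Phi_nonneg' M hk' f)
  have h6 : ∃ k ∈ range (Fintype.card α + 1), 0 < Tk M x k := by
    rcases isEmpty_or_nonempty α with hα | ⟨⟨a0⟩⟩
    · refine ⟨0, mem_range.2 (by omega), ?_⟩
      unfold Tk Vk
      have h7 : ∃ f : α → Fin 0, f ∈ Sj α 0 :=
        ⟨fun b => (hα.false b).elim, mem_Sj.2 fun y => y.elim0⟩
      have h8 : 0 < ∑ f ∈ Sj α 0, Phi M x f :=
        sum_pos (fun f _ => Phi_pos' M (by push_cast; linarith) f) h7
      simpa using h8
    · have h9 : 0 < Fintype.card α := Fintype.card_pos_iff.2 ⟨a0⟩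
      refine ⟨1, mem_range.2 (by omega), ?_⟩
      unfold Tk Vk
      have h7 : ∃ f : α → Fin 1, f ∈ Sj α 1 :=
        ⟨fun b => 0, mem_Sj.2 fun y => ⟨a0, Subsingleton.elim _ _⟩⟩
      have h8 : 0 < ∑ f ∈ Sj α 1, Phi M x f :=
        sum_pos (fun f _ => Phi_pos' M (by push_cast; linarith) f) h7
      have h9 : (descPochhammer ℝ 1).eval x = x := by simp
      rw [h9]
      simp only [Nat.factorial_one, Nat.cast_one, inv_one, one_mul]
      exact mul_pos (by linarith) h8
  exact sum_pos' h5 h6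

open scoped Classical in
lemma RT2 {α α' β : Type} [Fintype α'] [Fintype β] (T : Finset α) (i j : α → β)
    (N : α' → Finset β) {x : ℝ} (hx1 : 1 < x) (hs : (Fintype.card α' : ℝ) ≤ x) :
    ∃ R : ℝ[X], (∀ n : ℕ, R.eval (n : ℝ) = ∑ c ∈ Fc T i j n, Phi N (n : ℝ) c) ∧
      0 < R.eval x := by
  obtain ⟨γ, hγ, p, hp, hp1, hp2⟩ := exists_quot T i j
  obtain ⟨R0, hR0⟩ := exists_poly (fun a => (N a).image p)
  refine ⟨R0, fun n => ?_, few_pos hR0 hx1 hs⟩
  rw [hR0, sum_pairs_eq T i j p hp hp1 (hp2 n)]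

open scoped Classical in
/-- the positivity when few sets have at least three elements -/
theorem mix_pos_few {α β : Type} [Fintype α] [Fintype β] {N : α → Finset β} {P : ℝ[X]}
    (hP : ∀ n : ℕ, P.eval (n : ℝ) = ∑ c : β → Fin n, Phi N (n : ℝ) c) {x : ℝ}
    (hx : ∀ a, ((N a).card : ℝ) < x) (hx0 : 0 < x)
    (hb : ∀ F : Finset α, (∀ a ∈ F, 3 ≤ (N a).card) → (F.card : ℝ) ≤ x) :
    0 < P.eval x := by
  by_cases h3 : ∃ a, 3 ≤ (N a).card
  swap
  · push Not at h3
    exact two_pos (fun a => by have := h3 a; omega) hP hx hx0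
  obtain ⟨a0, ha0⟩ := h3
  have hx1 : 1 < x := by
    have h4 : (3 : ℝ) ≤ (N a0).card := by exact_mod_cast ha0
    linarith [hx a0]
  obtain ⟨b0, hb0⟩ : (N a0).Nonempty := card_pos.1 (by omega)
  obtain ⟨p, hp⟩ : ∃ p : α → Prop, ∀ a, p a ↔ (N a).card ≤ 2 := ⟨_, fun a => Iff.rfl⟩
  obtain ⟨M, hM⟩ : ∃ M : {a : α // p a} → Finset β, M = fun a => N a.1 := ⟨_, rfl⟩
  obtain ⟨M', hM'⟩ : ∃ M' : {a : α // ¬ p a} → Finset β, M' = fun a => N a.1 := ⟨_, rfl⟩
  have hs : (Fintype.card {a : α // ¬ p a} : ℝ) ≤ x := by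
    rw [Fintype.card_subtype]
    refine hb _ fun a ha => ?_
    have h4 := (mem_filter.1 ha).2
    rw [hp] at h4
    omega
  have hR : ∀ (T : Finset {a : α // p a}) (i j : {a : α // p a} → β),
      ∃ R : ℝ[X], (∀ n : ℕ, R.eval (n : ℝ) =
      ∑ c ∈ Fc T i j n, Phi M' (n : ℝ) c) ∧ 0 < R.eval x := by
    intro T i j
    exact RT2 T i j M' hx1 hs
  have hP' : ∀ n : ℕ, P.eval (n : ℝ) = ∑ c : β → Fin n,
      Phi M (n : ℝ) c * Phi M' (n : ℝ) c := by
    intro n
    rw [hP, hM, hM']
    exact sum_congr rfl fun c _ => (Phi_split p N (n : ℝ) c).symm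
  have h2 : ∀ a, (M a).card ≤ 2 := fun a => by
    rw [hM]
    exact (hp a.1).1 a.2
  exact mix_aux h2 hP' (fun a => by rw [hM]; exact hx a.1) b0 hR

end Pool.Agent.P8H87.SK
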